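import Pool.Agent.X328.GC.Defs

set_option autoImplicit false

open MvPolynomial

namespace Pool.Agent.X328.GC

theorem smooth {k : Type*} [Field k] (p : ℕ) [Fact p.Prime] [CharP k p] (q : Coord → k) (hq : q ∈ surf k p) :
    LinearIndependent k ![fun c => eval q (pderiv c (F k p)), fun c => eval q (pderiv c (G k p))] := by
  obtain ⟨⟨i, hi⟩, ⟨j, hj⟩, h⟩ := hq
  have hp0 : p ≠ 0 := (Fact.out : p.Prime).ne_zero
  rw [LinearIndependent.pair_iff]
  intro s t hst
  have h1 := congrFun hst (Sum.inl j)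
  have h2 := congrFun hst (Sum.inr i)
  have e1 : eval q (pderiv (Sum.inl j) (F k p)) = q (Sum.inr j) ^ p := by
    simp [F, pderiv_X, Derivation.leibniz, Derivation.leibniz_pow, Pi.single_apply]
  have e2 : eval q (pderiv (Sum.inl j) (G k p)) = 0 := by
    simp [G, pderiv_X, Derivation.leibniz, Derivation.leibniz_pow, Pi.single_apply]
  have e3 : eval q (pderiv (Sum.inr i) (F k p)) = 0 := by
    simp [F, pderiv_X, Derivation.leibniz, Derivation.leibniz_pow, Pi.single_apply]
  have e4 : eval q (pderiv (Sum.inr i) (G k p)) = q (Sum.inl i) ^ p := by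
    simp [G, pderiv_X, Derivation.leibniz, Derivation.leibniz_pow, Pi.single_apply]
  simp only [Pi.add_apply, Pi.smul_apply, e1, e2, e3, e4, smul_eq_mul, mul_zero, add_zero, zero_add,
    Pi.zero_apply] at h1 h2
  exact ⟨(mul_eq_zero.1 h1).resolve_right (pow_ne_zero _ hj),
    (mul_eq_zero.1 h2).resolve_right (pow_ne_zero _ hi)⟩

/-- scaling the two blocks of a coordinate vector -/
def sc {A : Type*} [CommRing A] (a b : A) (q : Coord → A) : Coord → A :=
  Sum.elim (fun i => a * q (Sum.inl i)) (fun j => b * q (Sum.inr j))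

theorem aeval_sc {k : Type*} [Field k] {A : Type*} [CommRing A] [Algebra k A] (a b : A)
    (q : Coord → A) {f : MvPolynomial Coord k} {d e : ℕ} (hf : BihomOf f (d, e)) :
    aeval (sc a b q) f = a ^ d * b ^ e * aeval q f := by
  rw [aeval_def, aeval_def, eval₂_eq', eval₂_eq', Finset.mul_sum]
  refine Finset.sum_congr rfl fun m hm => ?_
  have h := hf (mem_support_iff.1 hm)
  rw [Finsupp.weight_apply, Finsupp.sum_fintype _ _ (by simp)] at h
  rw [Fintype.sum_sum_type] at h
  have h1 := congrArg Prod.fst h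
  have h2 := congrArg Prod.snd h
  simp [Prod.fst_sum, Prod.snd_sum] at h1 h2
  rw [Fintype.prod_sum_type, Fintype.prod_sum_type]
  simp only [sc, Sum.elim_inl, Sum.elim_inr, mul_pow, Finset.prod_mul_distrib]
  rw [Finset.prod_pow_eq_pow_sum, Finset.prod_pow_eq_pow_sum, h1, h2]
  ring

/-- cross product -/
def cr {A : Type*} [CommRing A] (a b : Fin 3 → A) : Fin 3 → A :=
  ![a 1 * b 2 - a 2 * b 1, a 2 * b 0 - a 0 * b 2, a 0 * b 1 - a 1 * b 0]

/-- the parametrization -/
def phi {A : Type*} [CommRing A] (p : ℕ) (t : Fin 3 → A) : Coord → A :=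
  Sum.elim (fun i => t i ^ p) (cr (fun i => t i ^ (p * p)) t)

theorem aeval_F {k : Type*} [Field k] {A : Type*} [CommRing A] [Algebra k A] (p : ℕ)
    (q : Coord → A) : aeval q (F k p) = ∑ i, q (Sum.inl i) * q (Sum.inr i) ^ p := by
  simp [F]

theorem aeval_G {k : Type*} [Field k] {A : Type*} [CommRing A] [Algebra k A] (p : ℕ)
    (q : Coord → A) : aeval q (G k p) = ∑ i, q (Sum.inl i) ^ p * q (Sum.inr i) := by
  simp [G]

theorem aeval_lin {k : Type*} [Field k] {A : Type*} [CommRing A] [Algebra k A] (l : Fin 3 → k)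
    (q : Coord → A) : aeval q (lin l) = ∑ i, algebraMap k A (l i) * q (Sum.inl i) := by
  simp [lin]

theorem sum3_pow {A : Type*} [CommRing A] (p : ℕ) [Fact p.Prime] [CharP A p] (a : Fin 3 → A) :
    (∑ i, a i) ^ p = ∑ i, a i ^ p := by
  rw [Fin.sum_univ_three, Fin.sum_univ_three, add_pow_char, add_pow_char]

theorem F_phi {k : Type*} [Field k] {A : Type*} [CommRing A] [Algebra k A] (p : ℕ) [Fact p.Prime]
    [CharP A p] (t : Fin 3 → A) : aeval (phi p t) (F k p) = 0 := by
  rw [aeval_F]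
  have h : ∀ i, phi p t (Sum.inl i) * phi p t (Sum.inr i) ^ p =
      (t i * cr (fun i => t i ^ (p * p)) t i) ^ p := by
    intro i
    simp [phi, mul_pow]
  rw [Finset.sum_congr rfl fun i _ => h i, ← sum3_pow p]
  have : ∑ i, t i * cr (fun i => t i ^ (p * p)) t i = 0 := by
    rw [Fin.sum_univ_three]; simp [cr]; ring
  rw [this, zero_pow (Fact.out : p.Prime).ne_zero]

theorem G_phi {k : Type*} [Field k] {A : Type*} [CommRing A] [Algebra k A] (p : ℕ)
    (t : Fin 3 → A) : aeval (phi p t) (G k p) = 0 := by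
  rw [aeval_G, Fin.sum_univ_three]
  simp [phi, cr, ← pow_mul]
  ring

theorem bihom_F (k : Type*) [Field k] (p : ℕ) : BihomOf (F k p) (1, p) := by
  unfold BihomOf F
  apply IsWeightedHomogeneous.sum
  intro i _
  have h1 := isWeightedHomogeneous_X k (Sum.elim (fun _ => ((1, 0) : ℕ × ℕ)) (fun _ => ((0, 1) : ℕ × ℕ))) (Sum.inl i : Coord)
  have h2 := (isWeightedHomogeneous_X k (Sum.elim (fun _ => ((1, 0) : ℕ × ℕ)) (fun _ => ((0, 1) : ℕ × ℕ))) (Sum.inr i : Coord)).pow p
  have := h1.mul h2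
  convert this using 1
  simp

theorem bihom_G (k : Type*) [Field k] (p : ℕ) : BihomOf (G k p) (p, 1) := by
  unfold BihomOf G
  apply IsWeightedHomogeneous.sum
  intro i _
  have h1 := (isWeightedHomogeneous_X k (Sum.elim (fun _ => ((1, 0) : ℕ × ℕ)) (fun _ => ((0, 1) : ℕ × ℕ))) (Sum.inl i : Coord)).pow p
  have h2 := (isWeightedHomogeneous_X k (Sum.elim (fun _ => ((1, 0) : ℕ × ℕ)) (fun _ => ((0, 1) : ℕ × ℕ))) (Sum.inr i : Coord))
  have := h1.mul h2
  convert this using 1
  simp

end Pool.Agent.X328.GC
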