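import Pool.Agent.X328.GC.SurfDeg2

set_option autoImplicit false

open MvPolynomial

namespace Pool.Agent.X328.GC

universe u v

section basis
variable {E : Type*} [Field E]

/-- a basis of the orthogonal of a nonzero vector -/
theorem exists_basis {m : Fin 3 → E} (hm : m ≠ 0) : ∃ A B : Fin 3 → E,
    ∑ i, m i * A i = 0 ∧ ∑ i, m i * B i = 0 ∧
    (∀ s₀ s₁ : E, (∀ i, s₀ * A i + s₁ * B i = 0) → s₀ = 0 ∧ s₁ = 0) ∧
    ∀ t : Fin 3 → E, ∑ i, m i * t i = 0 → ∃ s₀ s₁ : E, ∀ i, t i = s₀ * A i + s₁ * B i := by
  obtain ⟨i, hi⟩ := Function.ne_iff.1 hm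
  rw [Pi.zero_apply] at hi
  fin_cases i
  · simp at hi
    refine ⟨![- m 1 / m 0, 1, 0], ![- m 2 / m 0, 0, 1], ?_, ?_, ?_, ?_⟩
    · rw [Fin.sum_univ_three]; simp; field_simp; ring
    · rw [Fin.sum_univ_three]; simp; field_simp; ring
    · intro s₀ s₁ h
      have h1 := h 1
      have h2 := h 2
      simp at h1 h2
      exact ⟨h1, h2⟩
    · intro t ht
      rw [Fin.sum_univ_three] at ht
      refine ⟨t 1, t 2, fun i => ?_⟩
      fin_cases i
      · simp; field_simp; linear_combination ht
      · simp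
      · simp
  · simp at hi
    refine ⟨![1, - m 0 / m 1, 0], ![0, - m 2 / m 1, 1], ?_, ?_, ?_, ?_⟩
    · rw [Fin.sum_univ_three]; simp; field_simp; ring
    · rw [Fin.sum_univ_three]; simp; field_simp; ring
    · intro s₀ s₁ h
      have h1 := h 0
      have h2 := h 2
      simp at h1 h2
      exact ⟨h1, h2⟩
    · intro t ht
      rw [Fin.sum_univ_three] at ht
      refine ⟨t 0, t 2, fun i => ?_⟩
      fin_cases i
      · simp
      · simp; field_simp; linear_combination ht
      · simp
  · simp at hi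
    refine ⟨![1, 0, - m 0 / m 2], ![0, 1, - m 1 / m 2], ?_, ?_, ?_, ?_⟩
    · rw [Fin.sum_univ_three]; simp; field_simp; ring
    · rw [Fin.sum_univ_three]; simp; field_simp; ring
    · intro s₀ s₁ h
      have h1 := h 0
      have h2 := h 1
      simp at h1 h2
      exact ⟨h1, h2⟩
    · intro t ht
      rw [Fin.sum_univ_three] at ht
      refine ⟨t 0, t 1, fun i => ?_⟩
      fin_cases i
      · simp
      · simp
      · simp; field_simp; linear_combination ht

end basis

section form

variable (k : Type u) [Field k] (p : ℕ)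

open Classical in
/-- the `F_{p²}`-rational elements -/
noncomputable def rts : Finset k :=
  (Polynomial.X ^ (p * p) - Polynomial.X : Polynomial k).roots.toFinset

open Classical in
/-- the product of the dual forms of the nonzero `F_{p²}`-rational vectors -/
noncomputable def Hform : MvPolynomial (Fin 3) k :=
  ∏ a ∈ (Fintype.piFinset fun _ : Fin 3 => rts k p).filter (fun a => a ≠ 0),
    ∑ i, C (a i) * X i

variable {k p}

theorem mem_rts (hpp : 1 < p * p) {x : k} : x ∈ rts k p ↔ x ^ (p * p) = x := by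
  classical
  unfold rts
  rw [Multiset.mem_toFinset, Polynomial.mem_roots (FiniteField.X_pow_card_sub_X_ne_zero k hpp)]
  simp [Polynomial.IsRoot, sub_eq_zero]

theorem Hform_ne : Hform k p ≠ 0 := by
  classical
  unfold Hform
  rw [Finset.prod_ne_zero_iff]
  intro a ha h0
  rw [Finset.mem_filter] at ha
  apply ha.2
  funext i
  have h1 := congrArg (coeff (Finsupp.single i 1)) h0
  rw [Fin.sum_univ_three] at h1
  simp only [coeff_add, coeff_C_mul, coeff_zero, coeff_X'] at h1
  fin_cases i <;> simpa [Finsupp.single_left_inj] using h1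

theorem Hform_homog : ∃ n, (Hform k p).IsHomogeneous n := by
  classical
  refine ⟨_, IsHomogeneous.prod _ _ (fun _ => 1) fun a _ => ?_⟩
  apply IsHomogeneous.sum
  intro i _
  have := (isHomogeneous_C (Fin 3) (a i)).mul (isHomogeneous_X k i)
  simpa using this

theorem Hform_spec (hpp : 1 < p * p) {l : Fin 3 → k} (h : eval l (Hform k p) ≠ 0)
    (a : Fin 3 → k) (ha0 : a ≠ 0) (ha : ∀ i, a i ^ (p * p) = a i) : ∑ i, a i * l i ≠ 0 := by
  classical
  unfold Hform at h
  rw [map_prod, Finset.prod_ne_zero_iff] at h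
  have := h a (by
    rw [Finset.mem_filter, Fintype.mem_piFinset]
    exact ⟨fun i => (mem_rts hpp).2 (ha i), ha0⟩)
  simpa using this

end form

end Pool.Agent.X328.GC
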