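import Pool.Agent.X328.GC.Curve

set_option autoImplicit false

open MvPolynomial

namespace Pool.Agent.X328.GC

universe u v

variable {k : Type u} [Field k] [IsAlgClosed k] (p : ℕ) [Fact p.Prime] [CharP k p]

/-- data on a line without `F_{p²}`-rational points -/
structure LineData (l : Fin 3 → k) (A B : Fin 3 → k) : Prop where
  indep : ∀ s₀ s₁ : k, (∀ i, s₀ * A i + s₁ * B i = 0) → s₀ = 0 ∧ s₁ = 0
  mem : ∀ s₀ s₁ : k, ∑ i, l i * (s₀ * A i + s₁ * B i) ^ p = 0
  span : ∀ t : Fin 3 → k, ∑ i, l i * t i ^ p = 0 → ∃ s₀ s₁ : k, ∀ i, t i = s₀ * A i + s₁ * B i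
  gen : ∀ t : Fin 3 → k, t ≠ 0 → ∑ i, l i * t i ^ p = 0 → cr (fun i => t i ^ (p * p)) t ≠ 0

theorem exists_lineData {l : Fin 3 → k} (h : eval l (Hform k p) ≠ 0) :
    ∃ A B, LineData p l A B := by
  have hp : p.Prime := Fact.out
  have hpp : 1 < p * p := by nlinarith [hp.two_le]
  have hspec := Hform_spec hpp h
  have hroot : ∀ i, ∃ t : k, t ^ p = l i := fun i =>
    IsAlgClosed.exists_pow_nat_eq _ hp.pos
  choose m hm using hroot
  have hm0 : m ≠ 0 := by
    rintro rfl
    apply hspec (fun _ => 1) (fun h => one_ne_zero (congrFun h 0)) (fun _ => one_pow _)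
    have : ∀ i, l i = 0 := fun i => by rw [← hm i, Pi.zero_apply, zero_pow hp.ne_zero]
    simp [this]
  have hsum : ∀ t : Fin 3 → k, ∑ i, l i * t i ^ p = (∑ i, m i * t i) ^ p := by
    intro t
    rw [sum3_pow p]
    exact Finset.sum_congr rfl fun i _ => by rw [mul_pow, hm]
  obtain ⟨A, B, hA, hB, hAB, hspan⟩ := exists_basis hm0
  refine ⟨A, B, hAB, ?_, ?_, ?_⟩
  · intro s₀ s₁
    rw [hsum]
    have : ∑ i, m i * (s₀ * A i + s₁ * B i) = 0 := by
      rw [Fin.sum_univ_three] at hA hB ⊢
      linear_combination s₀ * hA + s₁ * hB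
    rw [this, zero_pow hp.ne_zero]
  · intro t ht
    rw [hsum] at ht
    exact hspan t (eq_zero_of_pow_eq_zero ht)
  · intro t ht0 ht hc
    obtain ⟨c, a, hc0, ha0, hta, ha⟩ := ratl hp ht0 hc
    apply hspec (fun i => a i ^ p) ?_ ?_
    · have : ∑ i, l i * t i ^ p = c ^ p * ∑ i, a i ^ p * l i := by
        rw [Finset.mul_sum]
        exact Finset.sum_congr rfl fun i _ => by rw [hta i]; ring
      rw [this] at ht
      exact (mul_eq_zero.1 ht).resolve_left (pow_ne_zero _ hc0)
    · intro h0
      apply ha0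
      funext i
      exact eq_zero_of_pow_eq_zero (congrFun h0 i)
    · intro i
      rw [← pow_mul, mul_comm, pow_mul, ha]

variable {l A B : Fin 3 → k} (hL : LineData p l A B)

include hL in
theorem curve_phi_mem {t : Fin 3 → k} (ht : t ≠ 0) (h : ∑ i, l i * t i ^ p = 0) :
    phi p t ∈ curve k p l := by
  have h1 := phi_mem p (hL.gen t ht h)
  refine ⟨h1.1, h1.2.1, ?_⟩
  rintro f (rfl | rfl | rfl)
  · exact h1.2.2 _ (by simp)
  · exact h1.2.2 _ (by simp)
  · have := aeval_lin (k := k) l (phi p t)
    rw [show eval (phi p t) (lin l) = _ from this, ← h]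
    simp [phi]

include hL in
theorem curve_pt {q : Coord → k} (hq : q ∈ curve k p l) : ∃ s₀ s₁ μ : k, (s₀ ≠ 0 ∨ s₁ ≠ 0) ∧
    q = sc 1 μ (phi p (fun i => s₀ * A i + s₁ * B i)) := by
  have hp : p.Prime := Fact.out
  have hroot : ∀ i, ∃ t : k, t ^ p = q (Sum.inl i) := fun i =>
    IsAlgClosed.exists_pow_nat_eq _ hp.pos
  choose t ht using hroot
  have hqs : q ∈ surf k p := ⟨hq.1, hq.2.1, fun f hf => hq.2.2 f (by
    rcases hf with rfl | rfl
    · simp
    · simp)⟩
  have hl : ∑ i, l i * t i ^ p = 0 := by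
    have h1 := hq.2.2 (lin l) (by simp)
    have := aeval_lin (k := k) l q
    rw [show eval q (lin l) = _ from this] at h1
    rw [← h1]
    exact Finset.sum_congr rfl fun i _ => by rw [ht]; rfl
  have ht0 : t ≠ 0 := by
    rintro rfl
    obtain ⟨i, hi⟩ := hq.1
    apply hi
    rw [← ht i, Pi.zero_apply, zero_pow hp.ne_zero]
  obtain ⟨μ, hμ⟩ := pt_generic p hqs t ht (hL.gen t ht0 hl)
  obtain ⟨s₀, s₁, hs⟩ := hL.span t hl
  refine ⟨s₀, s₁, μ, ?_, ?_⟩
  · by_contra hcon
    push Not at hcon
    apply ht0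
    funext i
    rw [hs i, hcon.1, hcon.2]
    simp
  · rw [hμ]
    congr 2
    funext i
    exact hs i

/-- the polynomial parametrization of the curve -/
noncomputable def par1 (A B : Fin 3 → k) : Coord → Polynomial k :=
  phi p (fun i => Polynomial.C (A i) + Polynomial.X * Polynomial.C (B i))

theorem eval_phi_poly (u : Fin 3 → Polynomial k) (f : MvPolynomial Coord k) (r : k) :
    Polynomial.eval r (aeval (phi p u) f) = aeval (phi p (fun i => Polynomial.eval r (u i))) f := by
  have : ((Polynomial.aeval r : Polynomial k →ₐ[k] k).comp (aeval (phi p u))) =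
      aeval (phi p (fun i => Polynomial.eval r (u i))) := by
    apply algHom_ext
    intro c
    rw [AlgHom.comp_apply, aeval_X, aeval_X]
    rcases c with i | i
    · simp [phi]
    · fin_cases i <;> simp [phi, cr]
  rw [← this, AlgHom.comp_apply]
  simp

include hL in
theorem curve_par {f : MvPolynomial Coord k} (h : ∀ q ∈ curve k p l, eval q f = 0) :
    aeval (par1 p A B) f = 0 := by
  apply Polynomial.funext
  intro r
  rw [par1, eval_phi_poly, Polynomial.eval_zero]
  have h0 : (fun i => Polynomial.eval r (Polynomial.C (A i) + Polynomial.X * Polynomial.C (B i))) =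
      fun i => 1 * A i + r * B i := by
    funext i
    simp
    ring
  rw [h0]
  apply h
  apply curve_phi_mem p hL
  · intro h1
    have := (hL.indep 1 r fun i => congrFun h1 i).1
    exact one_ne_zero this
  · exact hL.mem 1 r

include hL in
theorem curve_vanish_iff {f : MvPolynomial Coord k} (hf : Bihomogeneous f) :
    aeval (par1 p A B) f = 0 ↔ ∀ q ∈ curve k p l, eval q f = 0 := by
  refine ⟨fun h q hq => ?_, curve_par p hL⟩
  obtain ⟨⟨d, e⟩, hd⟩ := hf
  obtain ⟨s₀, s₁, μ, hs, rfl⟩ := curve_pt p hL hq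
  -- vanishing at `A + r B`
  have h1 : ∀ r : k, aeval (phi p (fun i => A i + r * B i)) f = 0 := by
    intro r
    have h2 := congrArg (Polynomial.eval r) h
    rw [par1, eval_phi_poly, Polynomial.eval_zero] at h2
    have h0 : (fun i => Polynomial.eval r (Polynomial.C (A i) +
        Polynomial.X * Polynomial.C (B i))) = fun i => A i + r * B i := by
      funext i
      simp
      ring
    rwa [h0] at h2
  -- vanishing at `s A + B`
  have h3 : ∀ s : k, s ≠ 0 → aeval (phi p (fun i => s * A i + B i)) f = 0 := by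
    intro s hs
    have h4 : (fun i => s * A i + B i) = fun i => s * (A i + s⁻¹ * B i) := by
      funext i
      field_simp
    rw [h4, phi_smul, aeval_sc _ _ _ hd, h1, mul_zero]
  have h5 : ∀ s : k, aeval (phi p (fun i => s * A i + B i)) f = 0 := by
    have h6 : aeval (phi p (fun i => Polynomial.X * Polynomial.C (A i) + Polynomial.C (B i))) f *
        Polynomial.X = 0 := by
      apply Polynomial.funext
      intro s
      rw [Polynomial.eval_mul, eval_phi_poly, Polynomial.eval_zero, Polynomial.eval_X]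
      have h0 : (fun i => Polynomial.eval s (Polynomial.X * Polynomial.C (A i) +
          Polynomial.C (B i))) = fun i => s * A i + B i := by
        funext i
        simp
        ring
      rw [h0]
      by_cases hs : s = 0
      · rw [hs, mul_zero]
      · rw [h3 s hs, zero_mul]
    intro s
    have h7 := (mul_eq_zero.1 h6).resolve_right Polynomial.X_ne_zero
    have h8 := congrArg (Polynomial.eval s) h7
    rw [eval_phi_poly, Polynomial.eval_zero] at h8
    have h0 : (fun i => Polynomial.eval s (Polynomial.X * Polynomial.C (A i) +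
        Polynomial.C (B i))) = fun i => s * A i + B i := by
      funext i
      simp
      ring
    rwa [h0] at h8
  have h9 : aeval (phi p (fun i => s₀ * A i + s₁ * B i)) f = 0 := by
    by_cases h0 : s₁ = 0
    · have hs0 : s₀ ≠ 0 := hs.resolve_right (fun h => h h0)
      have h4 : (fun i => s₀ * A i + s₁ * B i) = fun i => s₀ * (A i + 0 * B i) := by
        funext i
        rw [h0]
        ring
      rw [h4, phi_smul, aeval_sc _ _ _ hd, h1, mul_zero]
    · have h4 : (fun i => s₀ * A i + s₁ * B i) = fun i => s₁ * ((s₀ / s₁) * A i + B i) := by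
        funext i
        field_simp
      rw [h4, phi_smul, aeval_sc _ _ _ hd, h5, mul_zero]
  have h10 := aeval_sc (1 : k) μ (phi p (fun i => s₀ * A i + s₁ * B i)) hd
  rw [h9, mul_zero] at h10
  exact h10

include hL in
theorem curve_irred : Irred (curve k p l) := by
  refine ⟨⟨phi p (fun i => 1 * A i + 0 * B i), curve_phi_mem p hL ?_ (hL.mem 1 0)⟩,
    fun f g hf hg h => ?_⟩
  · intro h1
    have := (hL.indep 1 0 fun i => congrFun h1 i).1
    exact one_ne_zero this
  · have h1 := curve_par p hL h
    rw [← curve_vanish_iff p hL hf, ← curve_vanish_iff p hL hg, ← mul_eq_zero, ← map_mul]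
    exact h1

end Pool.Agent.X328.GC
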