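import Pool.Agent.X328.GC.Curve2

set_option autoImplicit false

open MvPolynomial

namespace Pool.Agent.X328.GC

universe u v

theorem gonality_one {k : Type u} [Field k] {E : Type v} [Field E] [Algebra k E]
    (e : RatFunc k ≃ₐ[k] E) : gonality k E = 1 := by
  have h1 : HasMapToLine k E 1 := by
    have htop : IntermediateField.adjoin k {e RatFunc.X} = ⊤ := by
      have h2 := congrArg (IntermediateField.map (e : RatFunc k →ₐ[k] E))
        (RatFunc.adjoin_X (K := k))
      rw [IntermediateField.adjoin_map, Set.image_singleton] at h2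
      have h3 : IntermediateField.map (e : RatFunc k →ₐ[k] E) ⊤ = ⊤ := by
        rw [← AlgHom.fieldRange_eq_map, AlgHom.fieldRange_eq_top]
        exact e.surjective
      rw [h3] at h2
      exact h2
    have hrank : Module.finrank (IntermediateField.adjoin k {e RatFunc.X}) E = 1 := by
      rw [IntermediateField.finrank_eq_one_iff_eq_top]
      exact htop
    refine ⟨e RatFunc.X, ?_, ?_, hrank⟩
    · intro h
      apply RatFunc.transcendental_X (K := k)
      exact (isAlgebraic_algHom_iff (e : RatFunc k →ₐ[k] E) e.injective).1 h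
    · apply FiniteDimensional.of_finrank_pos
      rw [hrank]
      exact one_pos
  apply le_antisymm (Nat.sInf_le h1)
  apply le_csInf ⟨1, h1⟩
  rintro d ⟨t, _, hfin, hd⟩
  rw [← hd]
  exact Module.finrank_pos

variable {k : Type u} [Field k] [IsAlgClosed k] (p : ℕ) [Fact p.Prime] [CharP k p]
variable {l A B : Fin 3 → k} (hL : LineData p l A B)

include hL in
theorem curve_functionField : ∃ (E : IntermediateField k (RatFunc k)) (Q : Coord → E),
    IsFunctionField (curve k p l) E Q ∧ E ≠ ⊥ := by
  have hp : p.Prime := Fact.out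
  let P : Coord → RatFunc k := fun c => algebraMap (Polynomial k) (RatFunc k) (par1 p A B c)
  have hinj : Function.Injective (algebraMap (Polynomial k) (RatFunc k)) :=
    IsFractionRing.injective _ _
  have hP : ∀ f : MvPolynomial Coord k, aeval P f =
      algebraMap (Polynomial k) (RatFunc k) (aeval (par1 p A B) f) := by
    intro f
    have : (IsScalarTower.toAlgHom k (Polynomial k) (RatFunc k)).comp (aeval (par1 p A B)) =
        aeval P := by
      apply algHom_ext
      intro c
      rw [AlgHom.comp_apply, aeval_X, aeval_X]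
      rfl
    rw [← this]
    rfl
  have hmem : phi p (fun i => 1 * A i + 0 * B i) ∈ curve k p l := by
    apply curve_phi_mem p hL ?_ (hL.mem 1 0)
    intro h1
    have := (hL.indep 1 0 fun i => congrFun h1 i).1
    exact one_ne_zero this
  have hbX : ∀ c : Coord, Bihomogeneous (X c : MvPolynomial Coord k) := fun c =>
    ⟨_, isWeightedHomogeneous_X k _ c⟩
  have hne : ∀ c : Coord, phi p (fun i => 1 * A i + 0 * B i) c ≠ 0 → P c ≠ 0 := by
    intro c hc h0
    apply hc
    have h1 : aeval (par1 p A B) (X c : MvPolynomial Coord k) = 0 := by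
      rw [aeval_X]
      exact hinj (by rw [map_zero]; exact h0)
    have h2 := (curve_vanish_iff p hL (hbX c)).1 h1 _ hmem
    rwa [eval_X] at h2
  have h0 : ∃ i, P (Sum.inl i) ≠ 0 := by
    obtain ⟨i, hi⟩ := hmem.1
    exact ⟨i, hne _ hi⟩
  have h1 : ∃ i, P (Sum.inr i) ≠ 0 := by
    obtain ⟨i, hi⟩ := hmem.2.1
    exact ⟨i, hne _ hi⟩
  obtain ⟨E, Q, hQ, _⟩ := exists_functionField (Z := curve k p l) P h0 h1 (fun f hf => by
    rw [← curve_vanish_iff p hL hf, hP, map_eq_zero_iff _ hinj])
  refine ⟨E, Q, hQ, ?_⟩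
  intro hbot
  -- all the ratios would be constants
  obtain ⟨i₀, hi₀⟩ := hQ.inl_ne
  have hconst : ∀ z : E, ∃ c : k, algebraMap k E c = z := by
    intro z
    have hz : (z : RatFunc k) ∈ (⊥ : IntermediateField k (RatFunc k)) := hbot ▸ z.2
    rw [IntermediateField.mem_bot] at hz
    obtain ⟨c, hc⟩ := hz
    exact ⟨c, Subtype.ext hc⟩
  choose c hc using fun i => hconst (Q (Sum.inl i))
  have hc0 : c i₀ ≠ 0 := by
    intro h
    apply hi₀
    rw [← hc, h, map_zero]
  have hvan : ∀ i, ∀ q ∈ curve k p l, c i₀ * q (Sum.inl i) = c i * q (Sum.inl i₀) := by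
    intro i q hq
    have hb : Bihomogeneous (C (c i₀) * X (Sum.inl i) - C (c i) * X (Sum.inl i₀) :
        MvPolynomial Coord k) := by
      refine ⟨(1, 0), ?_⟩
      have e1 := (isWeightedHomogeneous_C (Sum.elim (fun _ => ((1, 0) : ℕ × ℕ))
        (fun _ => ((0, 1) : ℕ × ℕ))) (c i₀)).mul (isWeightedHomogeneous_X k (Sum.elim
          (fun _ => ((1, 0) : ℕ × ℕ)) (fun _ => ((0, 1) : ℕ × ℕ))) (Sum.inl i : Coord))
      have e2 := (isWeightedHomogeneous_C (Sum.elim (fun _ => ((1, 0) : ℕ × ℕ))
        (fun _ => ((0, 1) : ℕ × ℕ))) (c i)).mul (isWeightedHomogeneous_X k (Sum.elim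
          (fun _ => ((1, 0) : ℕ × ℕ)) (fun _ => ((0, 1) : ℕ × ℕ))) (Sum.inl i₀ : Coord))
      rw [zero_add] at e1 e2
      exact (weightedHomogeneousSubmodule k _ _).sub_mem e1 e2
    have h2 := (hQ.vanish _ hb).1 (by
      rw [map_sub, map_mul, map_mul, aeval_X, aeval_X, aeval_C, aeval_C, hc, hc]
      ring) q hq
    simp only [map_sub, map_mul, eval_C, eval_X] at h2
    exact sub_eq_zero.1 h2
  -- the points `s = 0, 1`
  have hpt : ∀ s₀ s₁ : k, (s₀ ≠ 0 ∨ s₁ ≠ 0) → ∀ i,
      c i₀ * (s₀ * A i + s₁ * B i) ^ p = c i * (s₀ * A i₀ + s₁ * B i₀) ^ p := by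
    intro s₀ s₁ hs i
    have h3 : phi p (fun i => s₀ * A i + s₁ * B i) ∈ curve k p l := by
      apply curve_phi_mem p hL ?_ (hL.mem s₀ s₁)
      intro h1
      have := hL.indep s₀ s₁ fun i => congrFun h1 i
      rcases hs with h | h
      · exact h this.1
      · exact h this.2
    exact hvan i _ h3
  have hA := hpt 1 0 (Or.inl one_ne_zero)
  have hB := hpt 0 1 (Or.inr one_ne_zero)
  -- `B i₀ • A = A i₀ • B`
  have key : ∀ i, B i₀ * A i + (- A i₀) * B i = 0 := by
    intro i
    have h1 : (B i₀ * A i) ^ p = (A i₀ * B i) ^ p := by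
      apply mul_left_cancel₀ hc0
      have a1 := hA i
      have b1 := hB i
      simp only [one_mul, zero_mul, add_zero, zero_add] at a1 b1
      rw [mul_pow, mul_pow]
      linear_combination B i₀ ^ p * a1 - A i₀ ^ p * b1
    have h2 : B i₀ * A i = A i₀ * B i := frobenius_inj k p h1
    linear_combination h2
  have hz := hL.indep _ _ key
  have hA0 : A i₀ = 0 := neg_eq_zero.1 hz.2
  have hA1 : ∀ i, A i = 0 := by
    intro i
    have := hA i
    simp only [one_mul, zero_mul, add_zero, hA0] at this
    rw [zero_pow hp.ne_zero, mul_zero] at this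
    exact eq_zero_of_pow_eq_zero ((mul_eq_zero.1 this).resolve_left hc0)
  have := hL.indep 1 0 (fun i => by rw [hA1]; simp)
  exact one_ne_zero this.1

include hL in
theorem curve_gonality {E : Type v} [Field E] [Algebra k E] {Q : Coord → E}
    (h : IsFunctionField (curve k p l) E Q) : gonality k E = 1 := by
  obtain ⟨E', Q', h', hbot⟩ := curve_functionField p hL
  obtain ⟨e⟩ := h'.unique h
  exact gonality_one ((RatFunc.Luroth.algEquiv hbot).trans e)

end Pool.Agent.X328.GC
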