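import Mathlib

set_option autoImplicit false

open MvPolynomial

namespace Pool.Agent.X328.GC

/-- Index set of the homogeneous coordinates `x_i` (left) and `y_i` (right) of `P² × P²`. -/
abbrev Coord := Fin 3 ⊕ Fin 3

/-- `f` is bihomogeneous of bidegree `d`. -/
def BihomOf {k : Type*} [Field k] (f : MvPolynomial Coord k) (d : ℕ × ℕ) : Prop :=
  IsWeightedHomogeneous (Sum.elim (fun _ => ((1, 0) : ℕ × ℕ)) (fun _ => ((0, 1) : ℕ × ℕ))) f d

/-- Bihomogeneous polynomials (of some bidegree). -/
def Bihomogeneous {k : Type*} [Field k] (f : MvPolynomial Coord k) : Prop :=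
  ∃ d : ℕ × ℕ, BihomOf f d

/-- The closed subset of `P² × P²` over `k` defined by the set `S` of bihomogeneous polynomials,
given as the set of the coordinate vectors of its `k`-points. -/
def points {k : Type*} [Field k] (S : Set (MvPolynomial Coord k)) : Set (Coord → k) :=
  {q | (∃ i, q (Sum.inl i) ≠ 0) ∧ (∃ j, q (Sum.inr j) ≠ 0) ∧ ∀ f ∈ S, eval q f = 0}

/-- `Z` is irreducible: it is nonempty, and a product of two bihomogeneous polynomials vanishes on
it only if one of the factors does. -/
def Irred {k : Type*} [Field k] (Z : Set (Coord → k)) : Prop :=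
  Z.Nonempty ∧ ∀ f g : MvPolynomial Coord k, Bihomogeneous f → Bihomogeneous g →
    (∀ q ∈ Z, eval q (f * g) = 0) → (∀ q ∈ Z, eval q f = 0) ∨ ∀ q ∈ Z, eval q g = 0

/-- `K` is the function field of the irreducible closed subset `Z` of `P² × P²`, with generic point
`P`: the bihomogeneous polynomials vanishing at `P` are those vanishing on `Z`, and `K` is generated
over `k` by the ratios of the coordinates of `P` in each of the two blocks. -/
structure IsFunctionField {k : Type*} [Field k] (Z : Set (Coord → k)) (K : Type*) [Field K]
    [Algebra k K] (P : Coord → K) : Prop where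
  inl_ne : ∃ i, P (Sum.inl i) ≠ 0
  inr_ne : ∃ j, P (Sum.inr j) ≠ 0
  vanish : ∀ f : MvPolynomial Coord k, Bihomogeneous f →
    (aeval P f = 0 ↔ ∀ q ∈ Z, eval q f = 0)
  gen : IntermediateField.adjoin k ({z | ∃ i j, z = P (Sum.inl i) / P (Sum.inl j)} ∪
    {z | ∃ i j, z = P (Sum.inr i) / P (Sum.inr j)}) = ⊤

/-- There is a dominant rational map of degree `d` from the surface with function field `K` to the
plane: `K` is an extension of degree `d` of a field `k(u, v)`, `u`, `v` algebraically
independent. -/
def HasMapToPlane (k K : Type*) [Field k] [Field K] [Algebra k K] (d : ℕ) : Prop :=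
  ∃ u v : K, AlgebraicIndependent k ![u, v] ∧
    FiniteDimensional (IntermediateField.adjoin k {u, v}) K ∧
    Module.finrank (IntermediateField.adjoin k {u, v}) K = d

/-- The degree of irrationality of the surface with function field `K`: the least degree of a
dominant rational map to the plane. -/
noncomputable def irr (k K : Type*) [Field k] [Field K] [Algebra k K] : ℕ :=
  sInf {d | HasMapToPlane k K d}

/-- There is a nonconstant morphism of degree `d` from the normalization of the curve with function
field `E` to the line: `E` is an extension of degree `d` of a field `k(t)`, `t` transcendental. -/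
def HasMapToLine (k E : Type*) [Field k] [Field E] [Algebra k E] (d : ℕ) : Prop :=
  ∃ t : E, Transcendental k t ∧ FiniteDimensional (IntermediateField.adjoin k {t}) E ∧
    Module.finrank (IntermediateField.adjoin k {t}) E = d

/-- The gonality of the curve with function field `E`. -/
noncomputable def gonality (k E : Type*) [Field k] [Field E] [Algebra k E] : ℕ :=
  sInf {d | HasMapToLine k E d}

/-- The form `∑ X_i Y_i ^ p` of bidegree `(1, p)`. -/
noncomputable def F (k : Type*) [Field k] (p : ℕ) : MvPolynomial Coord k :=
  ∑ i, X (Sum.inl i) * X (Sum.inr i) ^ p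

/-- The form `∑ X_i ^ p Y_i` of bidegree `(p, 1)`. -/
noncomputable def G (k : Type*) [Field k] (p : ℕ) : MvPolynomial Coord k :=
  ∑ i, X (Sum.inl i) ^ p * X (Sum.inr i)

/-- The surface `X : F = G = 0` in `P² × P²`. -/
def surf (k : Type*) [Field k] (p : ℕ) : Set (Coord → k) := points {F k p, G k p}

/-- The linear form `∑ l_i X_i` in the coordinates of the first factor. -/
noncomputable def lin {k : Type*} [Field k] (l : Fin 3 → k) : MvPolynomial Coord k :=
  ∑ i, C (l i) * X (Sum.inl i)

/-- The preimage `C_L` in `X` of the line `L : ∑ l_i x_i = 0` under the first projection. -/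
def curve (k : Type*) [Field k] (p : ℕ) (l : Fin 3 → k) : Set (Coord → k) :=
  points {F k p, G k p, lin l}

end Pool.Agent.X328.GC
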