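import Pool.Agent.X328.GC.Unique

set_option autoImplicit false

open MvPolynomial

namespace Pool.Agent.X328.GC

theorem exists_functionField {k : Type*} [Field k] {Z : Set (Coord → k)} {M : Type*} [Field M]
    [Algebra k M] (P : Coord → M) (h1 : ∃ i, P (Sum.inl i) ≠ 0) (h2 : ∃ j, P (Sum.inr j) ≠ 0)
    (hv : ∀ f : MvPolynomial Coord k, Bihomogeneous f →
      (aeval P f = 0 ↔ ∀ q ∈ Z, eval q f = 0)) :
    ∃ (E : IntermediateField k M) (Q : Coord → E), IsFunctionField Z E Q ∧
      ∃ a b : M, a ≠ 0 ∧ b ≠ 0 ∧ ∀ s, (Q s : M) = sc a b P s := by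
  obtain ⟨i₀, hi⟩ := h1
  obtain ⟨j₀, hj⟩ := h2
  set c : Coord → M := sc (P (Sum.inl i₀))⁻¹ (P (Sum.inr j₀))⁻¹ P with hc
  let E := IntermediateField.adjoin k (Set.range c)
  let Q : Coord → E := fun s => ⟨c s, IntermediateField.subset_adjoin _ _ ⟨s, rfl⟩⟩
  have hQ : ∀ s, (Q s : M) = c s := fun s => rfl
  have c1 : c (Sum.inl i₀) = 1 := by simp [c, sc, hi]
  have c2 : c (Sum.inr j₀) = 1 := by simp [c, sc, hj]
  have q1 : Q (Sum.inl i₀) = 1 := Subtype.ext c1
  have q2 : Q (Sum.inr j₀) = 1 := Subtype.ext c2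
  refine ⟨E, Q, ⟨⟨i₀, by rw [q1]; exact one_ne_zero⟩, ⟨j₀, by rw [q2]; exact one_ne_zero⟩, ?_, ?_⟩,
    _, _, inv_ne_zero hi, inv_ne_zero hj, fun s => rfl⟩
  · intro f hf
    rw [← hv f hf]
    obtain ⟨⟨d, e⟩, hd⟩ := hf
    have e1 := aeval_sc (P (Sum.inl i₀))⁻¹ (P (Sum.inr j₀))⁻¹ P hd
    have e2 : (aeval Q f : E).1 = aeval c f := by
      have : E.val (aeval Q f) = aeval (fun s => E.val (Q s)) f := by
        rw [← comp_aeval_apply]
      exact this
    have n1 : (P (Sum.inl i₀))⁻¹ ^ d * (P (Sum.inr j₀))⁻¹ ^ e ≠ 0 :=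
      mul_ne_zero (pow_ne_zero _ (inv_ne_zero hi)) (pow_ne_zero _ (inv_ne_zero hj))
    constructor
    · intro h
      rw [h] at e2
      have e3 : aeval c f = 0 := e2.symm
      rw [hc, e1] at e3
      exact (mul_eq_zero.1 e3).resolve_left n1
    · intro h
      apply Subtype.ext
      rw [e2, hc, e1, h, mul_zero]
      rfl
  · have hmap : IntermediateField.map E.val (IntermediateField.adjoin k (Set.range Q)) =
        IntermediateField.map E.val ⊤ := by
      rw [IntermediateField.adjoin_map, ← Set.range_comp]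
      have : IntermediateField.map E.val (⊤ : IntermediateField k E) = E := by
        rw [← AlgHom.fieldRange_eq_map, IntermediateField.fieldRange_val]
      rw [this]
      rfl
    have hr : IntermediateField.adjoin k (Set.range Q) = ⊤ :=
      (IntermediateField.map_injective E.val) hmap
    rw [← top_le_iff, ← hr, IntermediateField.adjoin_le_iff]
    rintro _ ⟨s, rfl⟩
    apply IntermediateField.subset_adjoin
    rcases s with i | j
    · left
      exact ⟨i, i₀, by rw [q1, div_one]⟩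
    · right
      exact ⟨j, j₀, by rw [q2, div_one]⟩

end Pool.Agent.X328.GC
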