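import Pool.Agent.X328.GC.Van

set_option autoImplicit false

open MvPolynomial

namespace Pool.Agent.X328.GC

universe u

variable {k : Type u} [Field k] [IsAlgClosed k] (p : ℕ) [Fact p.Prime] [CharP k p]

theorem phi_mem {t : Fin 3 → k} (h : cr (fun i => t i ^ (p * p)) t ≠ 0) : phi p t ∈ surf k p := by
  have hp : p.Prime := Fact.out
  refine ⟨?_, ?_, ?_⟩
  · by_contra hcon
    push Not at hcon
    apply h
    have h0 : ∀ i, t i = 0 := fun i => by
      have := hcon i
      simp only [phi, Sum.elim_inl] at this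
      exact eq_zero_of_pow_eq_zero this
    funext i
    fin_cases i <;> simp [cr, h0]
  · obtain ⟨i, hi⟩ := Function.ne_iff.1 h
    exact ⟨i, hi⟩
  · rintro f (rfl | rfl)
    · exact F_phi (k := k) p t
    · exact G_phi (k := k) p t

theorem exists_pow_ne (n : ℕ) (hn : 1 < n) : ∃ s : k, s ^ n ≠ s := by
  by_contra hcon
  push Not at hcon
  have h : (Polynomial.X ^ n - Polynomial.X : Polynomial k) = 0 := by
    apply Polynomial.funext
    intro r
    simp [hcon r]
  exact FiniteField.X_pow_card_sub_X_ne_zero k hn h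

theorem param_of_vanish {f : MvPolynomial Coord k} (h : ∀ q ∈ surf k p, eval q f = 0)
    (t : Fin 3 → k) : aeval (phi p t) f = 0 := by
  have hp : p.Prime := Fact.out
  have hpp : 1 < p * p := by nlinarith [hp.two_le]
  let g : MvPolynomial (Fin 3) k := aeval (phi p (X : Fin 3 → MvPolynomial (Fin 3) k)) f
  let δ : MvPolynomial (Fin 3) k := phi p (X : Fin 3 → MvPolynomial (Fin 3) k) (Sum.inr 0)
  have hg : ∀ t : Fin 3 → k, eval t g = aeval (phi p t) f := by
    intro t
    have := aeval_phi p (X : Fin 3 → MvPolynomial (Fin 3) k) t f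
    simp only [aeval_X] at this
    exact this
  have hδ : ∀ t : Fin 3 → k, eval t δ = phi p t (Sum.inr 0) := by
    intro t
    simp [δ, phi, cr]
  have h1 : g * δ = 0 := by
    apply MvPolynomial.funext
    intro t
    rw [map_mul, map_zero, hg, hδ]
    by_cases hc : cr (fun i => t i ^ (p * p)) t = 0
    · have : phi p t (Sum.inr 0) = 0 := congrFun hc 0
      rw [this, mul_zero]
    · have := h _ (phi_mem p hc)
      rw [show aeval (phi p t) f = 0 from this, zero_mul]
  have h2 : δ ≠ 0 := by
    intro h0
    obtain ⟨s, hs⟩ := exists_pow_ne (k := k) (p * p) hpp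
    have := hδ ![0, 1, s]
    rw [h0, map_zero] at this
    simp [phi, cr] at this
    exact hs (sub_eq_zero.1 this.symm).symm
  rw [← hg, (mul_eq_zero.1 h1).resolve_right h2, map_zero]

theorem surf_vanish_iff {f : MvPolynomial Coord k} (hf : Bihomogeneous f) :
    (∀ q ∈ surf k p, eval q f = 0) ↔ ∀ t : Fin 3 → k, aeval (phi p t) f = 0 := by
  obtain ⟨⟨d, e⟩, hd⟩ := hf
  exact ⟨fun h => param_of_vanish p h, fun h q hq => vanish_surf_of p hd h q hq⟩

theorem surf_poly_iff {f : MvPolynomial Coord k} (hf : Bihomogeneous f) :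
    (∀ q ∈ surf k p, eval q f = 0) ↔
      aeval (phi p (X : Fin 3 → MvPolynomial (Fin 3) k)) f = 0 := by
  rw [surf_vanish_iff p hf]
  have hg : ∀ t : Fin 3 → k, eval t (aeval (phi p (X : Fin 3 → MvPolynomial (Fin 3) k)) f) =
      aeval (phi p t) f := by
    intro t
    have := aeval_phi p (X : Fin 3 → MvPolynomial (Fin 3) k) t f
    simp only [aeval_X] at this
    exact this
  constructor
  · intro h
    apply MvPolynomial.funext
    intro t
    rw [hg, h, map_zero]
  · intro h t
    rw [← hg, h, map_zero]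

theorem surf_nonempty : (surf k p).Nonempty := by
  have hp : p.Prime := Fact.out
  have hpp : 1 < p * p := by nlinarith [hp.two_le]
  obtain ⟨s, hs⟩ := exists_pow_ne (k := k) (p * p) hpp
  refine ⟨_, phi_mem p (t := ![0, 1, s]) ?_⟩
  intro h
  have := congrFun h 0
  simp [cr] at this
  exact hs (sub_eq_zero.1 this).symm

theorem surf_irred : Irred (surf k p) := by
  refine ⟨surf_nonempty p, fun f g hf hg h => ?_⟩
  have h1 := param_of_vanish p h
  rw [surf_poly_iff p hf, surf_poly_iff p hg, ← mul_eq_zero, ← map_mul]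
  apply MvPolynomial.funext
  intro t
  have := aeval_phi p (X : Fin 3 → MvPolynomial (Fin 3) k) t (f * g)
  simp only [aeval_X] at this
  have h2 : eval t (aeval (phi p (X : Fin 3 → MvPolynomial (Fin 3) k)) (f * g)) =
    aeval (phi p t) (f * g) := this
  rw [h2, h1, map_zero]

theorem surf_functionField : ∃ (K : Type u) (_ : Field K) (_ : Algebra k K) (P : Coord → K),
    IsFunctionField (surf k p) K P := by
  have hp : p.Prime := Fact.out
  have hpp : 1 < p * p := by nlinarith [hp.two_le]
  let M := FractionRing (MvPolynomial (Fin 3) k)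
  let P : Coord → M := fun c => algebraMap (MvPolynomial (Fin 3) k) M (phi p X c)
  have hinj : Function.Injective (algebraMap (MvPolynomial (Fin 3) k) M) :=
    IsFractionRing.injective _ _
  have hP : ∀ f : MvPolynomial Coord k, aeval P f =
      algebraMap (MvPolynomial (Fin 3) k) M (aeval (phi p X) f) := by
    intro f
    have : (IsScalarTower.toAlgHom k (MvPolynomial (Fin 3) k) M).comp (aeval (phi p X)) =
        aeval P := by
      apply algHom_ext
      intro c
      rw [AlgHom.comp_apply, aeval_X, aeval_X]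
      rfl
    rw [← this]
    rfl
  have hne : ∀ c : Coord, phi p (X : Fin 3 → MvPolynomial (Fin 3) k) c ≠ 0 → P c ≠ 0 := by
    intro c hc h
    exact hc (hinj (by rw [map_zero]; exact h))
  have h0 : ∃ i, P (Sum.inl i) ≠ 0 := by
    refine ⟨0, hne _ ?_⟩
    simp only [phi, Sum.elim_inl]
    exact pow_ne_zero _ (X_ne_zero 0)
  have h1 : ∃ i, P (Sum.inr i) ≠ 0 := by
    refine ⟨0, hne _ ?_⟩
    intro h0
    obtain ⟨s, hs⟩ := exists_pow_ne (k := k) (p * p) hpp
    have := congrArg (eval ![0, 1, s]) h0
    simp [phi, cr] at this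
    exact hs (sub_eq_zero.1 this).symm
  obtain ⟨E, Q, hQ, _⟩ := exists_functionField (Z := surf k p) P h0 h1 (fun f hf => by
    rw [surf_poly_iff p hf, hP, map_eq_zero_iff _ hinj])
  exact ⟨E, inferInstance, inferInstance, Q, hQ⟩

end Pool.Agent.X328.GC
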