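import Pool.Agent.X328.GC.Basic

set_option autoImplicit false

open MvPolynomial

namespace Pool.Agent.X328.GC

universe u v

section degree

variable {k : Type u} [Field k] {σ : Type v}

theorem totalDegree_pderiv_le' (i : σ) (f : MvPolynomial σ k) :
    (pderiv i f).totalDegree ≤ f.totalDegree - 1 := by
  classical
  conv_lhs => rw [f.as_sum]
  rw [map_sum]
  refine totalDegree_finsetSum_le fun s hs => ?_
  rw [pderiv_monomial]
  by_cases h : s i = 0
  · rw [h, Nat.cast_zero, mul_zero, monomial_zero, totalDegree_zero]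
    exact Nat.zero_le _
  · refine (totalDegree_monomial_le _ _).trans ?_
    have h1 := le_totalDegree hs
    have h2 : s = (s - Finsupp.single i 1) + Finsupp.single i 1 := by
      ext j
      by_cases hj : j = i
      · subst hj
        simp
        omega
      · simp [Finsupp.single_apply, Ne.symm hj]
    have h3 : (s.sum fun _ e => e) = ((s - Finsupp.single i 1).sum fun _ e => e) + 1 := by
      conv_lhs => rw [h2]
      rw [Finsupp.sum_add_index' (by simp) (by simp), Finsupp.sum_single_index (by simp)]
    have h4 : (s.sum fun _ e => e) = s.degree := rfl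
    have h5 : ((s - Finsupp.single i 1).sum fun _ => id) = (s - Finsupp.single i 1).degree := rfl
    have h6 : ((s - Finsupp.single i 1).sum fun _ e => e) = (s - Finsupp.single i 1).degree := rfl
    rw [h4, h6] at h3
    rw [h4] at h1
    show ((s - Finsupp.single i 1).sum fun _ => id) ≤ _
    rw [h5]
    omega

end degree

section ufd

variable {R : Type u} [CommRing R] [IsDomain R] [UniqueFactorizationMonoid R]

/-- no common prime factor -/
def Prim (x : Fin 3 → R) : Prop := ∀ d : R, (∀ i, d ∣ x i) → IsUnit d

theorem Prim.ne_zero {x : Fin 3 → R} (h : Prim x) : ∃ i, x i ≠ 0 := by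
  by_contra hcon
  push Not at hcon
  exact not_isUnit_zero (h 0 fun i => by rw [hcon i])

theorem exists_prim (z : Fin 3 → R) (hz : z ≠ 0) : ∃ (g : R) (x : Fin 3 → R), g ≠ 0 ∧
    (∀ i, z i = g * x i) ∧ Prim x := by
  classical
  letI : StrongNormalizationMonoid R := UniqueFactorizationMonoid.strongNormalizationMonoid
  letI : NormalizedGCDMonoid R := UniqueFactorizationMonoid.toNormalizedGCDMonoid R
  obtain ⟨x, hx, hx1⟩ := Finset.extract_gcd (s := Finset.univ) z ⟨0, Finset.mem_univ _⟩
  obtain ⟨i, hi⟩ := Function.ne_iff.1 hz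
  refine ⟨_, x, ?_, fun i => hx i (Finset.mem_univ _), ?_⟩
  · intro h
    apply hi
    rw [hx i (Finset.mem_univ _), h, zero_mul]
    rfl
  · intro d hd
    have : d ∣ Finset.univ.gcd x := Finset.dvd_gcd fun i _ => hd i
    rw [hx1] at this
    exact isUnit_of_dvd_one this

theorem Prim.pow {x : Fin 3 → R} (h : Prim x) (n : ℕ) : Prim fun i => x i ^ n := by
  intro d hd
  by_contra hu
  obtain ⟨i, hi⟩ := h.ne_zero
  have hd0 : d ≠ 0 := by
    rintro rfl
    exact pow_ne_zero n hi (zero_dvd_iff.1 (hd i))
  obtain ⟨q, hq, hqd⟩ := WfDvdMonoid.exists_irreducible_factor hu hd0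
  have hqp : Prime q := hq.prime
  exact hqp.not_unit (h q fun i => hqp.dvd_of_dvd_pow (hqd.trans (hd i)))

/-- a vector parallel to a primitive vector is a multiple of it -/
theorem Prim.par {A Y : Fin 3 → R} (hY : Prim Y) (h : cr A Y = 0) :
    ∃ a : R, ∀ i, A i = a * Y i := by
  classical
  have h0 : A 1 * Y 2 - A 2 * Y 1 = 0 := congrFun h 0
  have h1 : A 2 * Y 0 - A 0 * Y 2 = 0 := congrFun h 1
  have h2 : A 0 * Y 1 - A 1 * Y 0 = 0 := congrFun h 2
  have hc : ∀ i j, A i * Y j = A j * Y i := by
    intro i j
    fin_cases i <;> fin_cases j <;> simp <;>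
      first | linear_combination h0 | linear_combination h1 | linear_combination h2 |
        linear_combination -h0 | linear_combination -h1 | linear_combination -h2 | skip
  obtain ⟨j, hj⟩ := hY.ne_zero
  letI : StrongNormalizationMonoid R := UniqueFactorizationMonoid.strongNormalizationMonoid
  letI : StrongNormalizedGCDMonoid R :=
    { UniqueFactorizationMonoid.toNormalizedGCDMonoid R with
      toStrongNormalizationMonoid := UniqueFactorizationMonoid.strongNormalizationMonoid }
  have hg : IsUnit (Finset.univ.gcd Y) := hY _ fun i => Finset.gcd_dvd (Finset.mem_univ i)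
  have hd : Y j ∣ Finset.univ.gcd fun i => A j * Y i := by
    apply Finset.dvd_gcd
    intro i _
    rw [← hc i j]
    exact dvd_mul_left _ _
  rw [Finset.gcd_mul_left] at hd
  have hd2 : Y j ∣ A j := by
    rw [hg.dvd_mul_right] at hd
    exact (dvd_normalize_iff).1 hd
  obtain ⟨a, ha⟩ := hd2
  refine ⟨a, fun i => ?_⟩
  apply mul_right_cancel₀ hj
  rw [hc i j, ha]
  ring

end ufd

end Pool.Agent.X328.GC
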