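import Pool.Agent.X328.GC.NoPoint

set_option autoImplicit false

open MvPolynomial

namespace Pool.Agent.X328.GC

universe u

section const

variable {k : Type u} [Field k]

/-- constants of a derivation in the fraction field -/
noncomputable def cst (D : Derivation k (MvPolynomial (Fin 2) k) (MvPolynomial (Fin 2) k)) :
    IntermediateField k (FractionRing (MvPolynomial (Fin 2) k)) where
  carrier := {z | ∃ A B : MvPolynomial (Fin 2) k, B ≠ 0 ∧
    z * algebraMap _ _ B = algebraMap _ (FractionRing (MvPolynomial (Fin 2) k)) A ∧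
    B * D A = A * D B}
  mul_mem' := by
    rintro z z' ⟨A, B, hB, hz, hD⟩ ⟨A', B', hB', hz', hD'⟩
    refine ⟨A * A', B * B', mul_ne_zero hB hB', ?_, ?_⟩
    · rw [map_mul, map_mul, ← hz, ← hz']; ring
    · simp only [Derivation.leibniz, smul_eq_mul]
      linear_combination (B' * A') * hD + (B * A) * hD'
  one_mem' := ⟨1, 1, one_ne_zero, by simp, rfl⟩
  add_mem' := by
    rintro z z' ⟨A, B, hB, hz, hD⟩ ⟨A', B', hB', hz', hD'⟩
    refine ⟨A * B' + A' * B, B * B', mul_ne_zero hB hB', ?_, ?_⟩
    · simp only [map_mul, map_add]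
      rw [← hz, ← hz']; ring
    · simp only [Derivation.leibniz, smul_eq_mul, map_add]
      linear_combination (B' ^ 2) * hD + (B ^ 2) * hD'
  zero_mem' := ⟨0, 1, one_ne_zero, by simp, by simp⟩
  algebraMap_mem' := by
    intro r
    refine ⟨C r, 1, one_ne_zero, ?_, ?_⟩
    · rw [map_one, mul_one, ← MvPolynomial.algebraMap_eq, ← IsScalarTower.algebraMap_apply]
    · rw [← MvPolynomial.algebraMap_eq]
      simp
  inv_mem' := by
    rintro z ⟨A, B, hB, hz, hD⟩
    by_cases hz0 : z = 0
    · subst hz0
      exact ⟨0, 1, one_ne_zero, by simp, by simp⟩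
    · have hinj : Function.Injective (algebraMap (MvPolynomial (Fin 2) k)
          (FractionRing (MvPolynomial (Fin 2) k))) := IsFractionRing.injective _ _
      have hA : A ≠ 0 := by
        rintro rfl
        rw [map_zero] at hz
        rcases mul_eq_zero.1 hz with h | h
        · exact hz0 h
        · exact hB (hinj (by rw [h, map_zero]))
      refine ⟨B, A, hA, ?_, hD.symm⟩
      rw [← hz, inv_mul_cancel_left₀ hz0]

theorem cst_top {D : Derivation k (MvPolynomial (Fin 2) k) (MvPolynomial (Fin 2) k)}
    (h : cst D = ⊤) (i : Fin 2) : D (X i) = 0 := by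
  have hinj : Function.Injective (algebraMap (MvPolynomial (Fin 2) k)
      (FractionRing (MvPolynomial (Fin 2) k))) := IsFractionRing.injective _ _
  have hm : algebraMap (MvPolynomial (Fin 2) k) (FractionRing (MvPolynomial (Fin 2) k)) (X i) ∈
      cst D := by rw [h]; trivial
  obtain ⟨A, B, hB, hz, hD⟩ := hm
  rw [← map_mul] at hz
  have hz' := hinj hz
  subst hz'
  simp only [Derivation.leibniz, smul_eq_mul] at hD
  have : B ^ 2 * D (X i) = 0 := by linear_combination hD
  exact (mul_eq_zero.1 this).resolve_left (pow_ne_zero _ hB)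

theorem ratio_mem_cst {D : Derivation k (MvPolynomial (Fin 2) k) (MvPolynomial (Fin 2) k)}
    {x : Fin 3 → MvPolynomial (Fin 2) k} (h : cr x (fun i => D (x i)) = 0) (i j : Fin 3) :
    algebraMap _ (FractionRing (MvPolynomial (Fin 2) k)) (x i) / algebraMap _ _ (x j) ∈
      cst D := by
  have hinj : Function.Injective (algebraMap (MvPolynomial (Fin 2) k)
      (FractionRing (MvPolynomial (Fin 2) k))) := IsFractionRing.injective _ _
  have h0 := congrFun h 0
  have h1 := congrFun h 1
  have h2 := congrFun h 2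
  simp [cr] at h0 h1 h2
  by_cases hj : x j = 0
  · rw [hj, map_zero, div_zero]
    exact zero_mem _
  · refine ⟨x i, x j, hj, ?_, ?_⟩
    · rw [div_mul_cancel₀]
      intro h
      exact hj (hinj (by rw [h, map_zero]))
    · fin_cases i <;> fin_cases j <;> simp <;>
        first | ring1 | linear_combination h0 | linear_combination h1 | linear_combination h2 |
          linear_combination -h0 | linear_combination -h1 | linear_combination -h2

end const

section deg

variable {k : Type u} [Field k]

/-- the largest total degree of the entries -/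
noncomputable def mdeg (x : Fin 3 → MvPolynomial (Fin 2) k) : ℕ :=
  Finset.univ.sup fun j => (x j).totalDegree

theorem le_mdeg (x : Fin 3 → MvPolynomial (Fin 2) k) (j : Fin 3) :
    (x j).totalDegree ≤ mdeg x :=
  Finset.le_sup (f := fun j => (x j).totalDegree) (Finset.mem_univ j)

theorem pderiv_eq_zero_of_deg {f : MvPolynomial (Fin 2) k} (h : f.totalDegree = 0) (i : Fin 2) :
    pderiv i f = 0 := by
  rw [totalDegree_eq_zero_iff_eq_C] at h
  rw [h, pderiv_C]

theorem cr_deg (x : Fin 3 → MvPolynomial (Fin 2) k) (i : Fin 2) (j : Fin 3)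
    (h : cr x (fun j => pderiv i (x j)) j ≠ 0) :
    (cr x (fun j => pderiv i (x j)) j).totalDegree + 1 ≤ 2 * mdeg x := by
  have hm : 1 ≤ mdeg x := by
    by_contra hcon
    have hm0 : mdeg x = 0 := by omega
    apply h
    have h0 : ∀ j, pderiv i (x j) = 0 := fun j =>
      pderiv_eq_zero_of_deg (by have := le_mdeg x j; omega) i
    fin_cases j <;> simp [cr, h0]
  have hd : ∀ a b : Fin 3, (x a * pderiv i (x b)).totalDegree ≤ 2 * mdeg x - 1 := by
    intro a b
    refine (totalDegree_mul _ _).trans ?_
    have h1 := totalDegree_pderiv_le' i (x b)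
    have h2 := le_mdeg x a
    have h3 := le_mdeg x b
    omega
  have hd2 : ∀ a b : Fin 3, (x a * pderiv i (x b) - x b * pderiv i (x a)).totalDegree ≤
      2 * mdeg x - 1 := fun a b =>
    (totalDegree_sub _ _).trans (max_le (hd a b) (hd b a))
  have hd3 : (cr x (fun j => pderiv i (x j)) j).totalDegree ≤ 2 * mdeg x - 1 := by
    fin_cases j
    · exact hd2 1 2
    · exact hd2 2 0
    · exact hd2 0 1
  omega

theorem totalDegree_pow_eq' {σ : Type*} {f : MvPolynomial σ k} (hf : f ≠ 0) (n : ℕ) :
    (f ^ n).totalDegree = n * f.totalDegree := by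
  induction n with
  | zero => simp
  | succ n ih =>
    rw [pow_succ, totalDegree_mul_of_isDomain (pow_ne_zero _ hf) hf, ih]
    ring

theorem deg_bound {p : ℕ} (hp : p ≠ 0) {x y : Fin 3 → MvPolynomial (Fin 2) k} (i : Fin 2)
    {α : MvPolynomial (Fin 2) k} (hα : α ≠ 0)
    (h : ∀ j, cr x (fun j => pderiv i (x j)) j = α * y j ^ p) (hy : ∃ j, y j ≠ 0) :
    p * mdeg y + 1 ≤ 2 * mdeg x := by
  have : ∃ j, y j ≠ 0 ∧ (y j).totalDegree = mdeg y := by
    obtain ⟨j, _, hj⟩ := Finset.exists_mem_eq_sup (Finset.univ : Finset (Fin 3))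
      ⟨0, Finset.mem_univ _⟩ (fun j => (y j).totalDegree)
    by_cases h0 : y j = 0
    · obtain ⟨l, hl⟩ := hy
      have h1 : mdeg y = 0 := by
        unfold mdeg
        rw [hj, h0, totalDegree_zero]
      have h2 := le_mdeg y l
      exact ⟨l, hl, by omega⟩
    · exact ⟨j, h0, hj.symm⟩
  obtain ⟨j, hj, hjd⟩ := this
  have h1 : α * y j ^ p ≠ 0 := mul_ne_zero hα (pow_ne_zero _ hj)
  have h2 := cr_deg x i j (by rw [h]; exact h1)
  rw [h, totalDegree_mul_of_isDomain hα (pow_ne_zero _ hj), totalDegree_pow_eq' hj,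
    hjd] at h2
  nlinarith

end deg

end Pool.Agent.X328.GC
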