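import Pool.Agent.X328.GC.NoPoint2

set_option autoImplicit false

open MvPolynomial

namespace Pool.Agent.X328.GC

universe u

variable {k : Type u} [Field k] (p : ℕ) [Fact p.Prime] [CharP k p]

theorem exists_der {x y : Fin 3 → MvPolynomial (Fin 2) k} (hy : Prim y)
    (h : ∑ i, x i * y i ^ p = 0) (D : Derivation k (MvPolynomial (Fin 2) k)
      (MvPolynomial (Fin 2) k)) :
    ∃ α, ∀ j, cr x (fun j => D (x j)) j = α * y j ^ p := by
  apply (hy.pow p).par
  have hc : (p : MvPolynomial (Fin 2) k) = 0 := CharP.cast_eq_zero _ _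
  have h' := congrArg D h
  rw [map_sum, map_zero] at h'
  simp only [Derivation.leibniz, smul_eq_mul, Derivation.leibniz_pow, nsmul_eq_mul, hc, zero_mul,
    mul_zero, zero_add] at h'
  rw [Fin.sum_univ_three] at h h'
  funext i
  fin_cases i
  · simp [cr]
    linear_combination (D (x 0)) * h - x 0 * h'
  · simp [cr]
    linear_combination (D (x 1)) * h - x 1 * h'
  · simp [cr]
    linear_combination (D (x 2)) * h - x 2 * h'

/-- The key step: a derivation killing all the ratios. -/
theorem exists_killing {x y : Fin 3 → MvPolynomial (Fin 2) k} (hx : Prim x) (hy : Prim y)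
    (h1 : ∑ i, x i * y i ^ p = 0) (h2 : ∑ i, y i * x i ^ p = 0) :
    ∃ D : Derivation k (MvPolynomial (Fin 2) k) (MvPolynomial (Fin 2) k),
      (D (X 0) ≠ 0 ∨ D (X 1) ≠ 0) ∧ cr x (fun i => D (x i)) = 0 ∧ cr y (fun i => D (y i)) = 0 := by
  have hp : p.Prime := Fact.out
  have ha : ∀ i : Fin 2, ∃ α, ∀ j, cr x (fun j => pderiv i (x j)) j = α * y j ^ p := fun i =>
    exists_der p hy h1 (pderiv i)
  have hb : ∀ i : Fin 2, ∃ β, ∀ j, cr y (fun j => pderiv i (y j)) j = β * x j ^ p := fun i =>
    exists_der p hx h2 (pderiv i)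
  choose α hα using ha
  choose β hβ using hb
  -- one of the two families vanishes
  have hor : (∀ i, α i = 0) ∨ ∀ i, β i = 0 := by
    by_contra hcon
    push Not at hcon
    obtain ⟨⟨i, hi⟩, ⟨j, hj⟩⟩ := hcon
    have d1 := deg_bound hp.ne_zero i hi (hα i) hy.ne_zero
    have d2 := deg_bound hp.ne_zero j hj (hβ j) hx.ne_zero
    have := hp.two_le
    nlinarith
  -- the general construction
  have key : ∀ (x y : Fin 3 → MvPolynomial (Fin 2) k) (β : Fin 2 → MvPolynomial (Fin 2) k),
      (∀ i j, cr x (fun j => pderiv i (x j)) j = 0) →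
      (∀ i j, cr y (fun j => pderiv i (y j)) j = β i * x j ^ p) →
      ∃ D : Derivation k (MvPolynomial (Fin 2) k) (MvPolynomial (Fin 2) k),
      (D (X 0) ≠ 0 ∨ D (X 1) ≠ 0) ∧ cr x (fun i => D (x i)) = 0 ∧
        cr y (fun i => D (y i)) = 0 := by
    intro x y β hx hy
    by_cases hβ0 : β 0 = 0 ∧ β 1 = 0
    · refine ⟨pderiv 0, Or.inl ?_, funext fun j => hx 0 j, funext fun j => ?_⟩
      · rw [pderiv_X_self]; exact one_ne_zero
      · have := hy 0 j
        rw [this, hβ0.1, zero_mul]; rfl
    · refine ⟨β 1 • pderiv 0 - β 0 • pderiv 1, ?_, funext fun j => ?_, funext fun j => ?_⟩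
      · have e0 : (β 1 • pderiv 0 - β 0 • pderiv 1 : Derivation k (MvPolynomial (Fin 2) k)
            (MvPolynomial (Fin 2) k)) (X 0) = β 1 := by
          simp [pderiv_X]
        have e1 : (β 1 • pderiv 0 - β 0 • pderiv 1 : Derivation k (MvPolynomial (Fin 2) k)
            (MvPolynomial (Fin 2) k)) (X 1) = - β 0 := by
          simp [pderiv_X]
        rw [e0, e1]
        by_contra hcon
        push Not at hcon
        exact hβ0 ⟨neg_eq_zero.1 hcon.2, hcon.1⟩
      · have a0 := hx 0 j
        have a1 := hx 1 j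
        fin_cases j
        all_goals
          simp [cr] at a0 a1 ⊢
          linear_combination β 1 * a0 - β 0 * a1
      · have a0 := hy 0 j
        have a1 := hy 1 j
        fin_cases j
        all_goals
          simp [cr] at a0 a1 ⊢
          linear_combination β 1 * a0 - β 0 * a1
  rcases hor with h | h
  · exact key x y β (fun i j => by rw [hα i j, h i, zero_mul]) hβ
  · obtain ⟨D, h3, h4, h5⟩ := key y x α (fun i j => by rw [hβ i j, h i, zero_mul]) hα
    exact ⟨D, h3, h5, h4⟩

theorem exists_primitive_rep (P : Fin 3 → FractionRing (MvPolynomial (Fin 2) k))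
    (hP : ∃ i, P i ≠ 0) : ∃ (g : FractionRing (MvPolynomial (Fin 2) k))
      (x : Fin 3 → MvPolynomial (Fin 2) k), g ≠ 0 ∧ Prim x ∧ ∀ i, P i = g * algebraMap _ _ (x i) := by
  obtain ⟨b, hb⟩ := IsLocalization.exist_integer_multiples_of_finite
    (nonZeroDivisors (MvPolynomial (Fin 2) k)) P
  choose z hz using hb
  have hinj : Function.Injective (algebraMap (MvPolynomial (Fin 2) k)
      (FractionRing (MvPolynomial (Fin 2) k))) := IsFractionRing.injective _ _
  have hb0 : algebraMap (MvPolynomial (Fin 2) k) (FractionRing (MvPolynomial (Fin 2) k))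
      (b : MvPolynomial (Fin 2) k) ≠ 0 := by
    intro h
    exact nonZeroDivisors.ne_zero b.2 (hinj (by rw [h, map_zero]))
  have hz0 : z ≠ 0 := by
    obtain ⟨i, hi⟩ := hP
    intro h
    have := hz i
    rw [h, Pi.zero_apply, map_zero, Algebra.smul_def] at this
    exact (mul_ne_zero hb0 hi) this.symm
  obtain ⟨g, x, hg, hx, hp⟩ := exists_prim z hz0
  refine ⟨(algebraMap _ _ (b : MvPolynomial (Fin 2) k))⁻¹ * algebraMap _ _ g, x,
    mul_ne_zero (inv_ne_zero hb0) (fun h => hg (hinj (by rw [h, map_zero]))), hp, fun i => ?_⟩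
  have := hz i
  rw [Algebra.smul_def] at this
  rw [mul_assoc, ← map_mul, ← hx, this, inv_mul_cancel_left₀ hb0]

/-- The function field of the surface is not purely transcendental. -/
theorem no_point_frac (P : Coord → FractionRing (MvPolynomial (Fin 2) k))
    (h1 : ∃ i, P (Sum.inl i) ≠ 0) (h2 : ∃ j, P (Sum.inr j) ≠ 0)
    (hF : aeval P (F k p) = 0) (hG : aeval P (G k p) = 0)
    (hg : IntermediateField.adjoin k ({z | ∃ i j, z = P (Sum.inl i) / P (Sum.inl j)} ∪
      {z | ∃ i j, z = P (Sum.inr i) / P (Sum.inr j)}) = ⊤) : False := by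
  have hp : p.Prime := Fact.out
  have hinj : Function.Injective (algebraMap (MvPolynomial (Fin 2) k)
      (FractionRing (MvPolynomial (Fin 2) k))) := IsFractionRing.injective _ _
  obtain ⟨g, x, hg0, hx, hPx⟩ := exists_primitive_rep (fun i => P (Sum.inl i)) h1
  obtain ⟨h, y, hh0, hy, hPy⟩ := exists_primitive_rep (fun i => P (Sum.inr i)) h2
  rw [aeval_F] at hF
  rw [aeval_G] at hG
  have e1 : ∑ i, x i * y i ^ p = 0 := by
    apply hinj
    rw [map_sum, map_zero]
    simp only [map_mul, map_pow]
    have : g * h ^ p * ∑ i, algebraMap (MvPolynomial (Fin 2) k)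
        (FractionRing (MvPolynomial (Fin 2) k)) (x i) * algebraMap _ _ (y i) ^ p = 0 := by
      rw [← hF, Finset.mul_sum]
      refine Finset.sum_congr rfl fun i _ => ?_
      rw [show P (Sum.inl i) = _ from hPx i, show P (Sum.inr i) = _ from hPy i]
      ring
    exact (mul_eq_zero.1 this).resolve_left (mul_ne_zero hg0 (pow_ne_zero _ hh0))
  have e2 : ∑ i, y i * x i ^ p = 0 := by
    apply hinj
    rw [map_sum, map_zero]
    simp only [map_mul, map_pow]
    have : h * g ^ p * ∑ i, algebraMap (MvPolynomial (Fin 2) k)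
        (FractionRing (MvPolynomial (Fin 2) k)) (y i) * algebraMap _ _ (x i) ^ p = 0 := by
      rw [← hG, Finset.mul_sum]
      refine Finset.sum_congr rfl fun i _ => ?_
      rw [show P (Sum.inl i) = _ from hPx i, show P (Sum.inr i) = _ from hPy i]
      ring
    exact (mul_eq_zero.1 this).resolve_left (mul_ne_zero hh0 (pow_ne_zero _ hg0))
  obtain ⟨D, hD, hDx, hDy⟩ := exists_killing p hx hy e1 e2
  have htop : cst D = ⊤ := by
    rw [← top_le_iff, ← hg, IntermediateField.adjoin_le_iff]
    rintro z (⟨i, j, rfl⟩ | ⟨i, j, rfl⟩)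
    · have := ratio_mem_cst hDx i j
      rw [show P (Sum.inl i) = _ from hPx i, show P (Sum.inl j) = _ from hPx j,
        mul_div_mul_left _ _ hg0]
      exact this
    · have := ratio_mem_cst hDy i j
      rw [show P (Sum.inr i) = _ from hPy i, show P (Sum.inr j) = _ from hPy j,
        mul_div_mul_left _ _ hh0]
      exact this
  rcases hD with h | h
  · exact h (cst_top htop 0)
  · exact h (cst_top htop 1)

end Pool.Agent.X328.GC
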