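import Pool.Agent.X328.GC.NoPoint3
import Pool.Agent.X328.GC.Fields

set_option autoImplicit false

open MvPolynomial

namespace Pool.Agent.X328.GC

universe u v

section transfer

variable {k : Type u} [Field k] {K : Type v} [Field K] [Algebra k K] {K' : Type*} [Field K']
  [Algebra k K']

theorem gen_transfer (e : K ≃ₐ[k] K') (P : Coord → K)
    (hg : IntermediateField.adjoin k ({z | ∃ i j, z = P (Sum.inl i) / P (Sum.inl j)} ∪
      {z | ∃ i j, z = P (Sum.inr i) / P (Sum.inr j)}) = ⊤) :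
    IntermediateField.adjoin k ({z | ∃ i j, z = (e ∘ P) (Sum.inl i) / (e ∘ P) (Sum.inl j)} ∪
      {z | ∃ i j, z = (e ∘ P) (Sum.inr i) / (e ∘ P) (Sum.inr j)}) = ⊤ := by
  have h1 := congrArg (IntermediateField.map (e : K →ₐ[k] K')) hg
  rw [IntermediateField.adjoin_map, Set.image_union] at h1
  have h2 : IntermediateField.map (e : K →ₐ[k] K') ⊤ = ⊤ := by
    rw [← AlgHom.fieldRange_eq_map, AlgHom.fieldRange_eq_top]
    exact e.surjective
  rw [h2] at h1
  rw [← h1]
  congr 1
  congr 1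
  · ext z
    constructor
    · rintro ⟨i, j, rfl⟩
      exact ⟨_, ⟨i, j, rfl⟩, by simp⟩
    · rintro ⟨_, ⟨i, j, rfl⟩, rfl⟩
      exact ⟨i, j, by simp⟩
  · ext z
    constructor
    · rintro ⟨i, j, rfl⟩
      exact ⟨_, ⟨i, j, rfl⟩, by simp⟩
    · rintro ⟨_, ⟨i, j, rfl⟩, rfl⟩
      exact ⟨i, j, by simp⟩

theorem range_pair (u v : K) : Set.range ![u, v] = {u, v} := by
  rw [Matrix.range_cons, Matrix.range_cons, Matrix.range_empty, Set.union_empty]
  rfl

end transfer

variable {k : Type u} [Field k] (p : ℕ) [Fact p.Prime] [CharP k p]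

theorem no_point {K : Type v} [Field K] [Algebra k K] (P : Coord → K)
    (h1 : ∃ i, P (Sum.inl i) ≠ 0) (h2 : ∃ j, P (Sum.inr j) ≠ 0)
    (hF : aeval P (F k p) = 0) (hG : aeval P (G k p) = 0)
    (hg : IntermediateField.adjoin k ({z | ∃ i j, z = P (Sum.inl i) / P (Sum.inl j)} ∪
      {z | ∃ i j, z = P (Sum.inr i) / P (Sum.inr j)}) = ⊤) (a b : K)
    (hab : AlgebraicIndependent k ![a, b]) (htop : IntermediateField.adjoin k {a, b} = ⊤) :
    False := by
  let e1 := hab.aevalEquivField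
  have h3 : IntermediateField.adjoin k (Set.range ![a, b]) = ⊤ := by rw [range_pair, htop]
  let e : K ≃ₐ[k] FractionRing (MvPolynomial (Fin 2) k) :=
    ((e1.trans (IntermediateField.equivOfEq h3)).trans IntermediateField.topEquiv).symm
  have hcomp : ∀ f : MvPolynomial Coord k, aeval (e ∘ P) f = e (aeval P f) := by
    intro f
    have : ((e : K →ₐ[k] FractionRing (MvPolynomial (Fin 2) k)).comp (aeval P)) =
        aeval (e ∘ P) := by
      apply algHom_ext
      intro c
      rw [AlgHom.comp_apply, aeval_X, aeval_X]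
      rfl
    rw [← this]
    rfl
  refine no_point_frac p (e ∘ P) ?_ ?_ ?_ ?_ (gen_transfer e P hg)
  · obtain ⟨i, hi⟩ := h1
    exact ⟨i, fun h => hi (e.injective (by rw [map_zero]; exact h))⟩
  · obtain ⟨i, hi⟩ := h2
    exact ⟨i, fun h => hi (e.injective (by rw [map_zero]; exact h))⟩
  · rw [hcomp, hF, map_zero]
  · rw [hcomp, hG, map_zero]

theorem two_le_of_hasMap {K : Type v} [Field K] [Algebra k K] (P : Coord → K)
    (h1 : ∃ i, P (Sum.inl i) ≠ 0) (h2 : ∃ j, P (Sum.inr j) ≠ 0)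
    (hF : aeval P (F k p) = 0) (hG : aeval P (G k p) = 0)
    (hg : IntermediateField.adjoin k ({z | ∃ i j, z = P (Sum.inl i) / P (Sum.inl j)} ∪
      {z | ∃ i j, z = P (Sum.inr i) / P (Sum.inr j)}) = ⊤) {d : ℕ} (hd : HasMapToPlane k K d) :
    2 ≤ d := by
  obtain ⟨a, b, hab, hfin, hrank⟩ := hd
  have hpos : 0 < d := by
    rw [← hrank]
    exact Module.finrank_pos
  by_contra hcon
  have h1' : d = 1 := by omega
  rw [h1', IntermediateField.finrank_eq_one_iff_eq_top] at hrank
  exact no_point p P h1 h2 hF hG hg a b hab hrank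

end Pool.Agent.X328.GC
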