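import Pool.Agent.X328.GC.Surf

set_option autoImplicit false

open MvPolynomial

namespace Pool.Agent.X328.GC

universe u v

variable {k : Type u} [Field k] [IsAlgClosed k] (p : ℕ) [Fact p.Prime] [CharP k p]
variable {K : Type v} [Field K] [Algebra k K] {P : Coord → K}

theorem phiX_ne (c : Coord) : phi p (X : Fin 3 → MvPolynomial (Fin 3) k) c ≠ 0 := by
  have hp : p.Prime := Fact.out
  have hpp : 1 < p * p := by nlinarith [hp.two_le]
  obtain ⟨s, hs⟩ := exists_pow_ne (k := k) (p * p) hpp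
  rcases c with i | i
  · simp only [phi, Sum.elim_inl]
    exact pow_ne_zero _ (X_ne_zero i)
  · intro h0
    fin_cases i
    · have := congrArg (eval ![0, 1, s]) h0
      simp [phi, cr] at this
      exact hs (sub_eq_zero.1 this).symm
    · have := congrArg (eval ![s, 0, 1]) h0
      simp [phi, cr] at this
      exact hs (sub_eq_zero.1 this).symm
    · have := congrArg (eval ![1, s, 0]) h0
      simp [phi, cr] at this
      exact hs (sub_eq_zero.1 this).symm

theorem coord_ne (h : IsFunctionField (surf k p) K P) (c : Coord) : P c ≠ 0 := by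
  have hb : Bihomogeneous (X c : MvPolynomial Coord k) := ⟨_, isWeightedHomogeneous_X k _ c⟩
  intro h0
  have h1 := (h.vanish _ hb).1 (by rw [aeval_X, h0])
  rw [surf_poly_iff p hb, aeval_X] at h1
  exact phiX_ne p c h1

theorem F_gen (h : IsFunctionField (surf k p) K P) : aeval P (F k p) = 0 :=
  (h.vanish _ ⟨_, bihom_F k p⟩).2 fun _ hq => hq.2.2 _ (by simp)

theorem G_gen (h : IsFunctionField (surf k p) K P) : aeval P (G k p) = 0 :=
  (h.vanish _ ⟨_, bihom_G k p⟩).2 fun _ hq => hq.2.2 _ (by simp)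

/-- the two affine coordinates of the plane are algebraically independent -/
theorem indep (h : IsFunctionField (surf k p) K P) :
    AlgebraicIndependent k ![P (Sum.inl 1) / P (Sum.inl 0), P (Sum.inl 2) / P (Sum.inl 0)] := by
  have hp : p.Prime := Fact.out
  have hpp : 1 < p * p := by nlinarith [hp.two_le]
  rw [algebraicIndependent_iff]
  intro g hg
  let ρ : Fin 2 → Coord := ![Sum.inl 1, Sum.inl 2]
  let g' : MvPolynomial Coord k := rename ρ g
  let c : Coord → K := sc (P (Sum.inl 0))⁻¹ (P (Sum.inr 0))⁻¹ P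
  have n0 := coord_ne p h (Sum.inl 0)
  have n1 := coord_ne p h (Sum.inr 0)
  have c1 : c (Sum.inl 0) = 1 := by simp [c, sc, n0]
  have c2 : c (Sum.inr 0) = 1 := by simp [c, sc, n1]
  have hcρ : c ∘ ρ = ![P (Sum.inl 1) / P (Sum.inl 0), P (Sum.inl 2) / P (Sum.inl 0)] := by
    funext i
    fin_cases i
    · simp [c, ρ, sc, div_eq_inv_mul]
    · simp [c, ρ, sc, div_eq_inv_mul]
  have e1 : aeval c g' = 0 := by
    rw [aeval_rename, hcρ, hg]
  have hb := hmg_bihom (0 : Fin 3) (0 : Fin 3) _ g' le_rfl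
  have e2 : aeval P (hmg 0 0 g'.totalDegree g') = 0 := by
    have := aeval_sc (P (Sum.inl 0))⁻¹ (P (Sum.inr 0))⁻¹ P hb
    rw [show aeval (sc (P (Sum.inl 0))⁻¹ (P (Sum.inr 0))⁻¹ P) (hmg 0 0 g'.totalDegree g') = 0 by
      rw [← e1]; exact hmg_aeval 0 0 _ g' c c1 c2] at this
    exact (mul_eq_zero.1 this.symm).resolve_left
      (mul_ne_zero (pow_ne_zero _ (inv_ne_zero n0)) (pow_ne_zero _ (inv_ne_zero n1)))
  have e3 := (h.vanish _ ⟨_, hb⟩).1 e2
  rw [surf_vanish_iff p ⟨_, hb⟩] at e3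
  -- the polynomial identity
  have e4 : g * (X 0 ^ (p * p) * X 1 - X 1 ^ (p * p) * X 0) = 0 := by
    apply MvPolynomial.funext
    intro s
    have hroot : ∀ i, ∃ t : k, t ^ p = s i := fun i =>
      IsAlgClosed.exists_pow_nat_eq _ hp.pos
    choose t ht using hroot
    let w : Fin 3 → k := ![1, t 0, t 1]
    have e5 := e3 w
    rw [map_mul, map_zero]
    set δ : k := phi p w (Sum.inr 0) with hδ
    have hδ2 : δ ^ p = eval s (X 0 ^ (p * p) * X 1 - X 1 ^ (p * p) * X 0) := by
      have hδ3 : δ = t 0 ^ (p * p) * t 1 - t 1 ^ (p * p) * t 0 := by simp [hδ, w, phi, cr]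
      rw [hδ3]
      simp only [map_sub, map_mul, map_pow, eval_X]
      rw [← ht 0, ← ht 1, sub_pow_char]
      ring
    by_cases h0 : δ = 0
    · rw [← hδ2, h0, zero_pow hp.ne_zero, mul_zero]
    · have e6 := aeval_sc 1 δ⁻¹ (phi p w) hb
      rw [e5, mul_zero] at e6
      have c3 : sc 1 δ⁻¹ (phi p w) (Sum.inl 0) = 1 := by simp [sc, phi, w]
      have c4 : sc 1 δ⁻¹ (phi p w) (Sum.inr 0) = 1 := by
        simp only [sc, Sum.elim_inr]
        rw [← hδ, inv_mul_cancel₀ h0]
      have e7 := hmg_aeval 0 0 g'.totalDegree g' (sc 1 δ⁻¹ (phi p w)) c3 c4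
      rw [show aeval (sc 1 δ⁻¹ (phi p w)) (hmg 0 0 g'.totalDegree g') = 0 from e6,
        aeval_rename] at e7
      have e8 : sc 1 δ⁻¹ (phi p w) ∘ ρ = s := by
        funext i
        fin_cases i
        · simp [sc, ρ, phi, w, ht]
        · simp [sc, ρ, phi, w, ht]
      rw [e8] at e7
      have e9 : eval s g = 0 := by
        rw [e7]; rfl
      rw [e9, zero_mul]
  refine (mul_eq_zero.1 e4).resolve_right ?_
  intro h0
  obtain ⟨s, hs⟩ := exists_pow_ne (k := k) (p * p) hpp
  have := congrArg (eval ![1, s]) h0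
  simp at this
  exact hs (sub_eq_zero.1 this).symm

end Pool.Agent.X328.GC
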