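import Pool.Agent.X328.GC.SurfDeg

set_option autoImplicit false

open MvPolynomial

namespace Pool.Agent.X328.GC

universe u v

section general

variable {k : Type u} [Field k] {K : Type v} [Field K] [Algebra k K] (p : ℕ) [Fact p.Prime]
  [CharP K p]

theorem deg_of_pow (L : IntermediateField k K) (r : K) (hr : r ∉ L) (hc : r ^ p ∈ L)
    (htop : ∀ S : IntermediateField k K, L ≤ S → r ∈ S → S = ⊤) :
    FiniteDimensional L K ∧ Module.finrank L K = p := by
  have hp : p.Prime := Fact.out
  let c : L := ⟨r ^ p, hc⟩
  have hirr : Irreducible (Polynomial.X ^ p - Polynomial.C c : Polynomial L) := by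
    apply X_pow_sub_C_irreducible_of_prime hp
    intro b hb
    apply hr
    have h1 : (b : K) ^ p = r ^ p := congrArg Subtype.val hb
    have h2 : (b : K) = r := frobenius_inj K p h1
    rw [← h2]
    exact b.2
  have hmon : (Polynomial.X ^ p - Polynomial.C c : Polynomial L).Monic :=
    Polynomial.monic_X_pow_sub_C c hp.ne_zero
  have hroot : Polynomial.aeval r (Polynomial.X ^ p - Polynomial.C c : Polynomial L) = 0 := by
    rw [map_sub, map_pow, Polynomial.aeval_X, Polynomial.aeval_C]
    exact sub_self _
  have hmin : minpoly L r = Polynomial.X ^ p - Polynomial.C c :=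
    (minpoly.eq_of_irreducible_of_monic hirr hroot hmon).symm
  have hint : IsIntegral L r := ⟨_, hmon, hroot⟩
  have htop' : IntermediateField.adjoin L {r} = ⊤ := by
    have h1 : (IntermediateField.adjoin L {r}).restrictScalars k = ⊤ := by
      apply htop
      · intro x hx
        exact (IntermediateField.adjoin L {r}).algebraMap_mem ⟨x, hx⟩
      · exact IntermediateField.mem_adjoin_simple_self L r
    rw [← top_le_iff]
    intro x _
    have : x ∈ (IntermediateField.adjoin L {r}).restrictScalars k := by rw [h1]; trivial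
    exact this
  have h1 := IntermediateField.adjoin.finrank hint
  have h2 := IntermediateField.adjoin.finiteDimensional hint
  rw [htop', hmin, Polynomial.natDegree_X_pow_sub_C, IntermediateField.finrank_top'] at h1
  refine ⟨?_, h1⟩
  apply FiniteDimensional.of_finrank_pos
  rw [h1]
  exact hp.pos

end general

variable {k : Type u} [Field k] [IsAlgClosed k] (p : ℕ) [Fact p.Prime] [CharP k p]
variable {K : Type v} [Field K] [Algebra k K] {P : Coord → K}

/-- The first projection has degree `p`. -/
theorem surf_degree (h : IsFunctionField (surf k p) K P) :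
    FiniteDimensional (IntermediateField.adjoin k {P (Sum.inl 1) / P (Sum.inl 0),
      P (Sum.inl 2) / P (Sum.inl 0)}) K ∧
    Module.finrank (IntermediateField.adjoin k {P (Sum.inl 1) / P (Sum.inl 0),
      P (Sum.inl 2) / P (Sum.inl 0)}) K = p := by
  have hp : p.Prime := Fact.out
  haveI : CharP K p := charP_of_injective_algebraMap (algebraMap k K).injective p
  set a := P (Sum.inl 1) / P (Sum.inl 0) with ha
  set b := P (Sum.inl 2) / P (Sum.inl 0) with hb
  set r := P (Sum.inr 1) / P (Sum.inr 2) with hr
  set s := P (Sum.inr 0) / P (Sum.inr 2) with hs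
  have hne := coord_ne p h
  have x1 : P (Sum.inl 1) = a * P (Sum.inl 0) := by rw [ha, div_mul_cancel₀ _ (hne _)]
  have x2 : P (Sum.inl 2) = b * P (Sum.inl 0) := by rw [hb, div_mul_cancel₀ _ (hne _)]
  have y1 : P (Sum.inr 1) = r * P (Sum.inr 2) := by rw [hr, div_mul_cancel₀ _ (hne _)]
  have y0 : P (Sum.inr 0) = s * P (Sum.inr 2) := by rw [hs, div_mul_cancel₀ _ (hne _)]
  have hF := F_gen p h
  have hG := G_gen p h
  rw [aeval_F, Fin.sum_univ_three, x1, x2, y1, y0] at hF
  rw [aeval_G, Fin.sum_univ_three, x1, x2, y1, y0] at hG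
  have eF : s ^ p + a * r ^ p + b = 0 := by
    have : P (Sum.inl 0) * P (Sum.inr 2) ^ p * (s ^ p + a * r ^ p + b) = 0 := by
      rw [← hF]; ring
    exact (mul_eq_zero.1 this).resolve_left (mul_ne_zero (hne _) (pow_ne_zero _ (hne _)))
  have eG : s + a ^ p * r + b ^ p = 0 := by
    have : P (Sum.inl 0) ^ p * P (Sum.inr 2) * (s + a ^ p * r + b ^ p) = 0 := by
      rw [← hG]; ring
    exact (mul_eq_zero.1 this).resolve_left (mul_ne_zero (pow_ne_zero _ (hne _)) (hne _))
  have eGp : s ^ p + a ^ (p * p) * r ^ p + b ^ (p * p) = 0 := by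
    have := congrArg (fun z => z ^ p) eG
    simp only [zero_pow hp.ne_zero, add_pow_char, mul_pow, ← pow_mul] at this
    exact this
  have er : (a ^ (p * p) - a) * r ^ p = b - b ^ (p * p) := by
    linear_combination eGp - eF
  have hind := indep p h
  rw [← ha, ← hb] at hind
  rw [algebraicIndependent_iff] at hind
  have hda : a ^ (p * p) - a ≠ 0 := by
    intro h0
    have h1 := hind (X 0 ^ (p * p) - X 0) (by simpa using h0)
    have h2 := congrArg (fun f => pderiv 0 f) h1
    simp [pderiv_X, Derivation.leibniz_pow] at h2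
  have haL : a ∈ IntermediateField.adjoin k {a, b} :=
    IntermediateField.subset_adjoin _ _ (by simp)
  have hbL : b ∈ IntermediateField.adjoin k {a, b} :=
    IntermediateField.subset_adjoin _ _ (by simp)
  apply deg_of_pow p (IntermediateField.adjoin k {a, b}) r
  · intro hr'
    rw [← range_pair, IntermediateField.mem_adjoin_range_iff] at hr'
    obtain ⟨z, w, hzw⟩ := hr'
    have hw : aeval ![a, b] w ≠ 0 := by
      intro h0
      rw [h0, div_zero] at hzw
      exact div_ne_zero (hne _) (hne _) hzw
    have h1 : aeval ![a, b] ((X 0 ^ (p * p) - X 0) * z ^ p - (X 1 - X 1 ^ (p * p)) * w ^ p) = 0 := by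
      simp only [map_sub, map_mul, map_pow, aeval_X, Matrix.cons_val_zero, Matrix.cons_val_one]
      have h2 : (a ^ (p * p) - a) * (aeval ![a, b] z) ^ p =
          ((a ^ (p * p) - a) * r ^ p) * (aeval ![a, b] w) ^ p := by
        have h3 : r ^ p * (aeval ![a, b] w) ^ p = (aeval ![a, b] z) ^ p := by
          rw [hzw, ← mul_pow, div_mul_cancel₀ _ hw]
        rw [mul_assoc, h3]
      rw [h2, er]
      simp
    have h2 := hind _ h1
    have h3 := congrArg (fun f => pderiv 1 f) h2
    simp [pderiv_X, Derivation.leibniz_pow, Derivation.leibniz] at h3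
    rw [h3.1] at hw
    exact hw (map_zero _)
  · have : r ^ p = (b - b ^ (p * p)) / (a ^ (p * p) - a) := by
      rw [eq_div_iff hda, mul_comm, er]
    rw [this]
    exact div_mem (sub_mem hbL (pow_mem hbL _)) (sub_mem (pow_mem haL _) haL)
  · intro S hLS hrS
    have haS := hLS haL
    have hbS := hLS hbL
    have hsS : s ∈ S := by
      have : s = - (a ^ p * r + b ^ p) := by linear_combination eG
      rw [this]
      exact neg_mem (add_mem (mul_mem (pow_mem haS _) hrS) (pow_mem hbS _))
    have h1 : ∀ i, P (Sum.inl i) / P (Sum.inl 0) ∈ S := by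
      intro i
      fin_cases i
      · simp only [Fin.zero_eta]
        rw [div_self (hne _)]
        exact one_mem _
      · exact haS
      · exact hbS
    have h2 : ∀ i, P (Sum.inr i) / P (Sum.inr 2) ∈ S := by
      intro i
      fin_cases i
      · exact hsS
      · exact hrS
      · simp only [Fin.reduceFinMk]
        rw [div_self (hne _)]
        exact one_mem _
    rw [← top_le_iff, ← h.gen, IntermediateField.adjoin_le_iff]
    rintro z (⟨i, j, rfl⟩ | ⟨i, j, rfl⟩)
    · have := div_mem (h1 i) (h1 j)
      rwa [div_div_div_cancel_right₀ (hne _)] at this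
    · have := div_mem (h2 i) (h2 j)
      rwa [div_div_div_cancel_right₀ (hne _)] at this

theorem surf_hasMap (h : IsFunctionField (surf k p) K P) : HasMapToPlane k K p :=
  ⟨_, _, indep p h, (surf_degree p h).1, (surf_degree p h).2⟩

theorem surf_two_le (h : IsFunctionField (surf k p) K P) {d : ℕ} (hd : HasMapToPlane k K d) :
    2 ≤ d :=
  two_le_of_hasMap p P ⟨0, coord_ne p h _⟩ ⟨0, coord_ne p h _⟩ (F_gen p h) (G_gen p h) h.gen hd

end Pool.Agent.X328.GC
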