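import Pool.Agent.X328.GC.Basic

set_option autoImplicit false

open MvPolynomial

namespace Pool.Agent.X328.GC

theorem exists_range_hom {k ι K K' : Type*} [Field k] [Field K] [Algebra k K] [Field K'] [Algebra k K']
    (c : ι → K) (c' : ι → K') (h : ∀ g : MvPolynomial ι k, aeval c g = 0 ↔ aeval c' g = 0) :
    ∃ g : (aeval c : MvPolynomial ι k →ₐ[k] K).range →ₐ[k] K', Function.Injective g ∧
      ∀ a : MvPolynomial ι k, g ⟨aeval c a, ⟨a, rfl⟩⟩ = aeval c' a := by
  let e := (aeval c : MvPolynomial ι k →ₐ[k] K).rangeRestrict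
  have he : Function.Surjective e := (aeval c).rangeRestrict_surjective
  let f' : (MvPolynomial ι k ⧸ RingHom.ker e) →ₐ[k] K' :=
    Ideal.Quotient.liftₐ (RingHom.ker e) (aeval c') fun a ha => by
      apply (h a).1
      have h1 : e a = 0 := ha
      have h2 := congrArg Subtype.val h1
      exact h2
  let g := f'.comp (Ideal.quotientKerAlgEquivOfSurjective he).symm.toAlgHom
  have hg : ∀ a : MvPolynomial ι k, g (e a) = aeval c' a := by
    intro a
    have h1 : (Ideal.quotientKerAlgEquivOfSurjective he).symm (e a) = Ideal.Quotient.mk _ a := by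
      rw [AlgEquiv.symm_apply_eq]
      rfl
    have h2 : g (e a) = f' ((Ideal.quotientKerAlgEquivOfSurjective he).symm (e a)) := rfl
    rw [h2, h1]
    rfl
  refine ⟨g, ?_, hg⟩
  rw [injective_iff_map_eq_zero]
  intro a ha
  obtain ⟨a, rfl⟩ := he a
  rw [hg] at ha
  have := (h a).2 ha
  exact Subtype.ext this

theorem exists_hom {k ι K K' : Type*} [Field k] [Field K] [Algebra k K] [Field K'] [Algebra k K']
    (c : ι → K) (c' : ι → K') (h : ∀ g : MvPolynomial ι k, aeval c g = 0 ↔ aeval c' g = 0)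
    (hc : IntermediateField.adjoin k (Set.range c) = ⊤) :
    ∃ φ : K →ₐ[k] K', ∀ i, φ (c i) = c' i := by
  obtain ⟨g, hg, hg2⟩ := exists_range_hom c c' h
  have : IsFractionRing (aeval c : MvPolynomial ι k →ₐ[k] K).range K := by
    refine IsFractionRing.of_field _ _ fun z => ?_
    have hz : z ∈ IntermediateField.adjoin k (Set.range c) := by rw [hc]; trivial
    obtain ⟨r, s, hrs⟩ := (IntermediateField.mem_adjoin_range_iff k c z).1 hz
    exact ⟨⟨aeval c r, ⟨r, rfl⟩⟩, ⟨aeval c s, ⟨s, rfl⟩⟩, hrs⟩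
  refine ⟨IsFractionRing.liftAlgHom (K := K) hg, fun i => ?_⟩
  have h1 : c i = algebraMap (aeval c : MvPolynomial ι k →ₐ[k] K).range K
      ⟨aeval c (X i), ⟨X i, rfl⟩⟩ := (aeval_X c i).symm
  rw [h1, IsFractionRing.liftAlgHom_apply, IsFractionRing.lift_algebraMap]
  exact (hg2 (X i)).trans (aeval_X c' i)

/-- bihomogenization -/
noncomputable def hmg {k : Type*} [Field k] (i₀ j₀ : Fin 3) (D : ℕ) (g : MvPolynomial Coord k) :
    MvPolynomial Coord k :=
  ∑ m ∈ g.support, monomial (m + Finsupp.single (Sum.inl i₀) (D - ∑ i, m (Sum.inl i)) +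
    Finsupp.single (Sum.inr j₀) (D - ∑ j, m (Sum.inr j))) (coeff m g)

theorem hmg_bihom {k : Type*} [Field k] (i₀ j₀ : Fin 3) (D : ℕ) (g : MvPolynomial Coord k)
    (hD : g.totalDegree ≤ D) : BihomOf (hmg i₀ j₀ D g) (D, D) := by
  unfold BihomOf hmg
  apply IsWeightedHomogeneous.sum
  intro m hm
  apply isWeightedHomogeneous_monomial
  have h0 : ∑ c, m c ≤ D := by
    refine le_trans ?_ hD
    have := le_totalDegree hm
    rwa [Finsupp.sum_fintype _ _ (by simp)] at this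
  rw [Fintype.sum_sum_type] at h0
  rw [map_add, map_add, Finsupp.weight_apply, Finsupp.weight_apply, Finsupp.weight_apply,
    Finsupp.sum_fintype _ _ (by simp), Finsupp.sum_single_index (by simp),
    Finsupp.sum_single_index (by simp), Fintype.sum_sum_type]
  ext
  · simp [Prod.fst_sum]
    omega
  · simp [Prod.snd_sum]
    omega

theorem hmg_aeval {k : Type*} [Field k] (i₀ j₀ : Fin 3) (D : ℕ) (g : MvPolynomial Coord k)
    {A : Type*} [CommRing A] [Algebra k A] (c : Coord → A) (h1 : c (Sum.inl i₀) = 1)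
    (h2 : c (Sum.inr j₀) = 1) : aeval c (hmg i₀ j₀ D g) = aeval c g := by
  unfold hmg
  conv_rhs => rw [g.as_sum]
  rw [map_sum, map_sum]
  refine Finset.sum_congr rfl fun m _ => ?_
  rw [monomial_add_single, monomial_add_single, map_mul, map_mul, map_pow, map_pow, aeval_X,
    aeval_X, h1, h2, one_pow, one_pow, mul_one, mul_one]

theorem gen_sc {k K : Type*} [Field k] [Field K] [Algebra k K] {i₀ j₀ : Fin 3} (P : Coord → K)
    (n1 : P (Sum.inl i₀) ≠ 0) (n2 : P (Sum.inr j₀) ≠ 0)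
    (hg : IntermediateField.adjoin k
        ({z | ∃ i j, z = P (Sum.inl i) / P (Sum.inl j)} ∪
        {z | ∃ i j, z = P (Sum.inr i) / P (Sum.inr j)}) = ⊤) :
    IntermediateField.adjoin k (Set.range (sc (P (Sum.inl i₀))⁻¹ (P (Sum.inr j₀))⁻¹ P)) = ⊤ := by
  rw [← top_le_iff, ← hg, IntermediateField.adjoin_le_iff]
  have hmem : ∀ s : Coord, sc (P (Sum.inl i₀))⁻¹ (P (Sum.inr j₀))⁻¹ P s ∈
      IntermediateField.adjoin k (Set.range (sc (P (Sum.inl i₀))⁻¹ (P (Sum.inr j₀))⁻¹ P)) :=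
    fun s => IntermediateField.subset_adjoin _ _ ⟨s, rfl⟩
  rintro z (⟨i, j, rfl⟩ | ⟨i, j, rfl⟩)
  · have := div_mem (hmem (Sum.inl i)) (hmem (Sum.inl j))
    simp only [sc, Sum.elim_inl] at this
    rwa [mul_div_mul_left _ _ (inv_ne_zero n1)] at this
  · have := div_mem (hmem (Sum.inr i)) (hmem (Sum.inr j))
    simp only [sc, Sum.elim_inr] at this
    rwa [mul_div_mul_left _ _ (inv_ne_zero n2)] at this

/-- The function field of `Z` is unique. -/
theorem IsFunctionField.unique {k : Type*} [Field k] {Z : Set (Coord → k)} {K K' : Type*} [Field K]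
    [Algebra k K] [Field K'] [Algebra k K'] {P : Coord → K} {P' : Coord → K'}
    (h : IsFunctionField Z K P) (h' : IsFunctionField Z K' P') : Nonempty (K ≃ₐ[k] K') := by
  obtain ⟨i₀, hi⟩ := h.inl_ne
  obtain ⟨j₀, hj⟩ := h.inr_ne
  have bX : ∀ c : Coord, Bihomogeneous (X c : MvPolynomial Coord k) := fun c =>
    ⟨_, isWeightedHomogeneous_X k _ c⟩
  have key : ∀ f : MvPolynomial Coord k, Bihomogeneous f → (aeval P f = 0 ↔ aeval P' f = 0) :=
    fun f hf => (h.vanish f hf).trans (h'.vanish f hf).symm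
  have hi' : P' (Sum.inl i₀) ≠ 0 := by
    have := (key (X (Sum.inl i₀)) (bX _)).not.1 (by rwa [aeval_X])
    rwa [aeval_X] at this
  have hj' : P' (Sum.inr j₀) ≠ 0 := by
    have := (key (X (Sum.inr j₀)) (bX _)).not.1 (by rwa [aeval_X])
    rwa [aeval_X] at this
  let c : Coord → K := sc (P (Sum.inl i₀))⁻¹ (P (Sum.inr j₀))⁻¹ P
  let c' : Coord → K' := sc (P' (Sum.inl i₀))⁻¹ (P' (Sum.inr j₀))⁻¹ P'
  have c1 : c (Sum.inl i₀) = 1 := by simp [c, sc, hi]
  have c2 : c (Sum.inr j₀) = 1 := by simp [c, sc, hj]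
  have c1' : c' (Sum.inl i₀) = 1 := by simp [c', sc, hi']
  have c2' : c' (Sum.inr j₀) = 1 := by simp [c', sc, hj']
  have main : ∀ g : MvPolynomial Coord k, aeval c g = 0 ↔ aeval c' g = 0 := by
    intro g
    have hb := hmg_bihom i₀ j₀ _ g le_rfl
    rw [← hmg_aeval i₀ j₀ g.totalDegree g c c1 c2, ← hmg_aeval i₀ j₀ g.totalDegree g c' c1' c2']
    have e1 := aeval_sc (P (Sum.inl i₀))⁻¹ (P (Sum.inr j₀))⁻¹ P hb
    have e2 := aeval_sc (P' (Sum.inl i₀))⁻¹ (P' (Sum.inr j₀))⁻¹ P' hb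
    have e3 := key _ ⟨_, hb⟩
    rw [show aeval c (hmg i₀ j₀ g.totalDegree g) = _ from e1,
      show aeval c' (hmg i₀ j₀ g.totalDegree g) = _ from e2]
    have n1 : (P (Sum.inl i₀))⁻¹ ^ g.totalDegree * (P (Sum.inr j₀))⁻¹ ^ g.totalDegree ≠ 0 :=
      mul_ne_zero (pow_ne_zero _ (inv_ne_zero hi)) (pow_ne_zero _ (inv_ne_zero hj))
    have n2 : (P' (Sum.inl i₀))⁻¹ ^ g.totalDegree * (P' (Sum.inr j₀))⁻¹ ^ g.totalDegree ≠ 0 :=
      mul_ne_zero (pow_ne_zero _ (inv_ne_zero hi')) (pow_ne_zero _ (inv_ne_zero hj'))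
    rw [mul_eq_zero_iff_left n1, mul_eq_zero_iff_left n2, e3]
  obtain ⟨φ, hφ⟩ := exists_hom c c' main (gen_sc P hi hj h.gen)
  have hsurj : Function.Surjective φ := by
    rw [← AlgHom.fieldRange_eq_top, ← top_le_iff]
    refine le_trans (gen_sc P' hi' hj' h'.gen).ge ?_
    rw [IntermediateField.adjoin_le_iff]
    rintro _ ⟨s, rfl⟩
    exact ⟨c s, hφ s⟩
  exact ⟨AlgEquiv.ofBijective φ ⟨φ.toRingHom.injective, hsurj⟩⟩

end Pool.Agent.X328.GC
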