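import Pool.Agent.X328.GC.Exist

set_option autoImplicit false

open MvPolynomial

namespace Pool.Agent.X328.GC

section Vec
variable {E : Type*} [Field E]

theorem par {a b : Fin 3 → E} (ha : a ≠ 0) (h : cr a b = 0) : ∃ c : E, ∀ i, b i = c * a i := by
  have h0 : a 1 * b 2 - a 2 * b 1 = 0 := congrFun h 0
  have h1 : a 2 * b 0 - a 0 * b 2 = 0 := congrFun h 1
  have h2 : a 0 * b 1 - a 1 * b 0 = 0 := congrFun h 2
  obtain ⟨i, hi⟩ := Function.ne_iff.1 ha
  rw [Pi.zero_apply] at hi
  refine ⟨b i / a i, fun j => ?_⟩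
  rw [div_mul_eq_mul_div, eq_div_iff hi]
  fin_cases i <;> fin_cases j <;> simp at * <;>
    first | ring1 | linear_combination h0 | linear_combination h1 | linear_combination h2 |
      linear_combination -h0 | linear_combination -h1 | linear_combination -h2

theorem orth {t u y : Fin 3 → E} (h : cr u t ≠ 0) (h1 : ∑ i, t i * y i = 0)
    (h2 : ∑ i, u i * y i = 0) : ∃ c : E, ∀ i, y i = c * cr u t i := by
  apply par h
  rw [Fin.sum_univ_three] at h1 h2
  funext i
  fin_cases i
  · simp [cr]
    linear_combination t 0 * h2 - u 0 * h1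
  · simp [cr]
    linear_combination t 1 * h2 - u 1 * h1
  · simp [cr]
    linear_combination t 2 * h2 - u 2 * h1

theorem orth_one {a y : Fin 3 → E} (ha : a ≠ 0) (h : ∑ i, a i * y i = 0) :
    ∃ s : Fin 3 → E, ∀ i, y i = cr a s i := by
  rw [Fin.sum_univ_three] at h
  obtain ⟨i, hi⟩ := Function.ne_iff.1 ha
  rw [Pi.zero_apply] at hi
  fin_cases i
  · simp at hi
    refine ⟨![0, y 2 / a 0, - y 1 / a 0], fun i => ?_⟩
    fin_cases i <;> simp [cr] <;> field_simp
    linear_combination h
  · simp at hi
    refine ⟨![- y 2 / a 1, 0, y 0 / a 1], fun i => ?_⟩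
    fin_cases i <;> simp [cr] <;> field_simp
    linear_combination h
  · simp at hi
    refine ⟨![y 1 / a 2, - y 0 / a 2, 0], fun i => ?_⟩
    fin_cases i <;> simp [cr] <;> field_simp
    linear_combination h

theorem ratl [IsAlgClosed E] {p : ℕ} (hp : p.Prime) {t : Fin 3 → E} (ht : t ≠ 0)
    (h : cr (fun i => t i ^ (p * p)) t = 0) :
    ∃ (c : E) (a : Fin 3 → E), c ≠ 0 ∧ a ≠ 0 ∧ (∀ i, t i = c * a i) ∧ ∀ i, a i ^ (p * p) = a i := by
  have h' : cr t (fun i => t i ^ (p * p)) = 0 := by
    funext i
    have := congrFun h i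
    fin_cases i <;> simp [cr] at this ⊢ <;> linear_combination -this
  obtain ⟨l, hl⟩ := par ht h'
  have hpp : 1 < p * p := by nlinarith [hp.two_le]
  obtain ⟨i, hi⟩ := Function.ne_iff.1 ht
  rw [Pi.zero_apply] at hi
  have hl0 : l ≠ 0 := by
    rintro rfl
    have := hl i
    rw [zero_mul] at this
    exact pow_ne_zero _ hi this
  obtain ⟨c, hc⟩ := IsAlgClosed.exists_pow_nat_eq l (n := p * p - 1) (by omega)
  have hc0 : c ≠ 0 := by
    rintro rfl
    rw [zero_pow (by omega)] at hc
    exact hl0 hc.symm
  refine ⟨c, fun i => t i / c, hc0, ?_, fun i => (mul_div_cancel₀ _ hc0).symm, fun i => ?_⟩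
  · intro h0
    have := congrFun h0 i
    simp at this
    rcases this with h | h
    · exact hi h
    · exact hc0 h
  · rw [div_pow, hl i, ← hc, div_eq_div_iff (pow_ne_zero _ hc0) hc0]
    have : p * p = (p * p - 1) + 1 := by omega
    rw [this, pow_succ, Nat.add_sub_cancel]
    ring

end Vec

theorem aeval_phi {k : Type*} [Field k] {A : Type*} [CommRing A] [Algebra k A] {σ : Type*} (p : ℕ)
    (t : Fin 3 → MvPolynomial σ k) (s : σ → A) (f : MvPolynomial Coord k) :
    aeval s (aeval (phi p t) f) = aeval (phi p (fun i => aeval s (t i))) f := by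
  have h : (aeval s : MvPolynomial σ k →ₐ[k] A).comp (aeval (phi p t)) =
      aeval (phi p (fun i => aeval s (t i))) := by
    apply algHom_ext
    intro c
    rw [AlgHom.comp_apply, aeval_X, aeval_X]
    rcases c with i | i
    · simp [phi]
    · fin_cases i <;> simp [phi, cr]
  rw [← h, AlgHom.comp_apply]

theorem phi_smul {A : Type*} [CommRing A] (p : ℕ) (c : A) (t : Fin 3 → A) :
    phi p (fun i => c * t i) = sc (c ^ p) (c ^ (p * p + 1)) (phi p t) := by
  funext s
  rcases s with i | i
  · simp [phi, sc, mul_pow]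
  · fin_cases i <;> simp [phi, sc, cr, mul_pow] <;> ring

variable {k : Type*} [Field k] [IsAlgClosed k] (p : ℕ) [Fact p.Prime] [CharP k p]

/-- the points with `t` not proportional to an `F_{p²}`-rational vector -/
theorem pt_generic {q : Coord → k} (hq : q ∈ surf k p) (t : Fin 3 → k)
    (ht : ∀ i, t i ^ p = q (Sum.inl i)) (hc : cr (fun i => t i ^ (p * p)) t ≠ 0) :
    ∃ μ : k, q = sc 1 μ (phi p t) := by
  obtain ⟨_, _, h⟩ := hq
  have hF : ∑ i, q (Sum.inl i) * q (Sum.inr i) ^ p = 0 := by
    rw [← aeval_F (k := k)]; exact h _ (by simp)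
  have hG : ∑ i, q (Sum.inl i) ^ p * q (Sum.inr i) = 0 := by
    rw [← aeval_G (k := k)]; exact h _ (by simp)
  have h1 : ∑ i, t i * q (Sum.inr i) = 0 := by
    apply eq_zero_of_pow_eq_zero (n := p)
    rw [sum3_pow p, ← hF]
    exact Finset.sum_congr rfl fun i _ => by rw [mul_pow, ht]
  have h2 : ∑ i, t i ^ (p * p) * q (Sum.inr i) = 0 := by
    rw [← hG]
    exact Finset.sum_congr rfl fun i _ => by rw [pow_mul, ht]
  obtain ⟨μ, hμ⟩ := orth hc h1 h2
  refine ⟨μ, funext fun s => ?_⟩
  rcases s with i | i
  · simp [sc, phi, ht]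
  · simp [sc, phi, hμ i]

theorem vanish_surf_of {f : MvPolynomial Coord k} {d e : ℕ} (hf : BihomOf f (d, e))
    (h : ∀ t : Fin 3 → k, aeval (phi p t) f = 0) (q : Coord → k)
    (hq : q ∈ surf k p) : eval q f = 0 := by
  have hp : p.Prime := Fact.out
  have hroot : ∀ i, ∃ t : k, t ^ p = q (Sum.inl i) := fun i =>
    IsAlgClosed.exists_pow_nat_eq _ hp.pos
  choose t ht using hroot
  by_cases hc : cr (fun i => t i ^ (p * p)) t = 0
  · have ht0 : t ≠ 0 := by
      rintro rfl
      obtain ⟨⟨i, hi⟩, _⟩ := hq
      apply hi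
      rw [← ht i, Pi.zero_apply, zero_pow hp.ne_zero]
    obtain ⟨c, a, hc0, ha0, hta, ha⟩ := ratl hp ht0 hc
    obtain ⟨_, _, h'⟩ := hq
    have hF : ∑ i, q (Sum.inl i) * q (Sum.inr i) ^ p = 0 := by
      rw [← aeval_F (k := k)]; exact h' _ (by simp)
    have h1 : ∑ i, t i * q (Sum.inr i) = 0 := by
      apply eq_zero_of_pow_eq_zero (n := p)
      rw [sum3_pow p, ← hF]
      exact Finset.sum_congr rfl fun i _ => by rw [mul_pow, ht]
    have h2 : ∑ i, a i * q (Sum.inr i) = 0 := by
      have : ∑ i, t i * q (Sum.inr i) = c * ∑ i, a i * q (Sum.inr i) := by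
        rw [Finset.mul_sum]
        exact Finset.sum_congr rfl fun i _ => by rw [hta]; ring
      rw [this] at h1
      exact (mul_eq_zero.1 h1).resolve_left hc0
    obtain ⟨s, hs⟩ := orth_one ha0 h2
    -- the curve `a + ε s`
    let u : Fin 3 → Polynomial k := fun i => Polynomial.C (a i) + Polynomial.X * Polynomial.C (s i)
    let y' : Fin 3 → Polynomial k := fun i => Polynomial.C (cr a s i) +
      Polynomial.X ^ (p * p - 1) * Polynomial.C (cr (fun i => s i ^ (p * p)) a i) +
      Polynomial.X ^ (p * p) * Polynomial.C (cr (fun i => s i ^ (p * p)) s i)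
    let w : Coord → Polynomial k := Sum.elim (fun i => u i ^ p) y'
    haveI : CharP (Polynomial k) p := inferInstance
    have hpp : 1 < p * p := by nlinarith [hp.two_le]
    have hu : ∀ i, u i ^ (p * p) = Polynomial.C (a i) +
        Polynomial.X ^ (p * p) * Polynomial.C (s i ^ (p * p)) := by
      intro i
      have e1 : u i ^ (p * p) = Polynomial.C (a i) ^ (p * p) +
          (Polynomial.X * Polynomial.C (s i)) ^ (p * p) := by
        rw [pow_mul, pow_mul, pow_mul, add_pow_char, add_pow_char]
      rw [e1, mul_pow, ← Polynomial.C_pow, ← Polynomial.C_pow, ha i]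
    have hphi : phi p u = sc 1 Polynomial.X w := by
      funext c
      rcases c with i | i
      · simp [phi, sc, w]
      · have hX : (Polynomial.X : Polynomial k) ^ (p * p) =
            Polynomial.X ^ (p * p - 1) * Polynomial.X := by
          rw [← pow_succ]; congr 1; omega
        fin_cases i
        · simp only [phi, sc, w, Sum.elim_inr, cr, hu, y', u]
          simp [hX]
          ring
        · simp only [phi, sc, w, Sum.elim_inr, cr, hu, y', u]
          simp [hX]
          ring
        · simp only [phi, sc, w, Sum.elim_inr, cr, hu, y', u]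
          simp [hX]
          ring
    have hz : aeval (phi p u) f = 0 := by
      apply Polynomial.funext
      intro r
      have e1 : Polynomial.eval r (aeval (phi p u) f) =
          aeval (phi p (fun i => Polynomial.eval r (u i))) f := by
        have : ((Polynomial.aeval r : Polynomial k →ₐ[k] k).comp (aeval (phi p u))) =
            aeval (phi p (fun i => Polynomial.eval r (u i))) := by
          apply algHom_ext
          intro c
          rw [AlgHom.comp_apply, aeval_X, aeval_X]
          rcases c with i | i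
          · simp [phi]
          · fin_cases i <;> simp [phi, cr]
        rw [← this, AlgHom.comp_apply]
        simp
      rw [e1, h, Polynomial.eval_zero]
    rw [hphi, aeval_sc _ _ _ hf, one_pow, one_mul] at hz
    have hz2 : aeval w f = 0 :=
      (mul_eq_zero.1 hz).resolve_left (pow_ne_zero _ Polynomial.X_ne_zero)
    have e2 : aeval (fun c => Polynomial.eval 0 (w c)) f = 0 := by
      have : ((Polynomial.aeval 0 : Polynomial k →ₐ[k] k).comp (aeval w)) =
          aeval (fun c => Polynomial.eval 0 (w c)) := by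
        apply algHom_ext
        intro c
        rw [AlgHom.comp_apply, aeval_X, aeval_X]
        simp
      rw [← this, AlgHom.comp_apply, hz2, map_zero]
    have hq' : q = sc (c ^ p) 1 (fun c => Polynomial.eval 0 (w c)) := by
      funext x
      rcases x with i | i
      · simp [sc, w, u, ← ht i, hta i, mul_pow]
      · have h3 : p * p - 1 ≠ 0 := by omega
        have h4 : p * p ≠ 0 := by omega
        simp [sc, w, y', hs i, h3, hp.ne_zero]
    rw [hq']
    have := aeval_sc (c ^ p) 1 (fun c => Polynomial.eval 0 (w c)) hf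
    rw [e2, mul_zero] at this
    exact this
  · obtain ⟨μ, hμ⟩ := pt_generic p hq t ht hc
    rw [hμ]
    have := aeval_sc 1 μ (phi p t) hf
    rw [h, mul_zero] at this
    exact this

end Pool.Agent.X328.GC
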